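import Mathlib

/-!
# CCL/Asym: elementary asymptotics
-/

namespace Pool.Agent.CCL

open Real Filter

/-- powers are small against exponentials -/
theorem ev_pow_exp (s b c : ℝ) (hb : 0 < b) (hc : 0 < c) :
    ∀ᶠ Y : ℝ in atTop, Y ^ s ≤ c * Real.exp (b * Y) := by
  have h1 := (isLittleO_rpow_exp_pos_mul_atTop s hb).bound hc
  filter_upwards [h1, eventually_ge_atTop 0] with Y h2 h3
  rwa [Real.norm_of_nonneg (Real.rpow_nonneg h3 _), Real.norm_of_nonneg (Real.exp_pos _).le] at h2

theorem ev_log (c : ℝ) (hc : 0 < c) : ∀ᶠ Y : ℝ in atTop, Real.log Y ≤ c * Y := by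
  have h1 := Real.isLittleO_log_id_atTop.bound hc
  filter_upwards [h1, eventually_ge_atTop 1] with Y h2 h3
  rw [Real.norm_of_nonneg (Real.log_nonneg h3)] at h2
  simpa [abs_of_nonneg (by linarith : (0 : ℝ) ≤ Y)] using h2

/-- the exponent -/
theorem ev_exponent (A ε C : ℝ) (hA : 1 < A) (hε : 0 < ε) (hC : 0 ≤ C) :
    ∀ᶠ Y : ℝ in atTop, ∀ j : ℝ, Y / (2 * (2 + ε) * A * Real.log Y) - 1 ≤ j →
      ((A - 1) / (4 * A) - ε / 2) * Y ≤ j * ((A - 1) * Real.log Y - C) := by
  have h1 : ∀ᶠ Y : ℝ in atTop, (A - 1) * Real.log Y ≤ ε / 8 * Y := by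
    have h2 := ev_log (ε / 8 / (A - 1)) (div_pos (by linarith) (by linarith))
    filter_upwards [h2] with Y h3
    calc (A - 1) * Real.log Y ≤ (A - 1) * (ε / 8 / (A - 1) * Y) :=
          mul_le_mul_of_nonneg_left h3 (by linarith)
      _ = ε / 8 * Y := by
          have : A - 1 ≠ 0 := by linarith
          field_simp
  have h2 : ∀ᶠ Y : ℝ in atTop, C / (A * (ε / 8)) + C / (A - 1) + 1 ≤ Real.log Y :=
    tendsto_log_atTop.eventually_ge_atTop _
  filter_upwards [h1, h2, eventually_gt_atTop 1] with Y h3 h4 h5 j hj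
  have hAm : 0 < A - 1 := by linarith
  have hlog : 0 < Real.log Y := by
    have : 0 ≤ C / (A * (ε / 8)) := by positivity
    have : 0 ≤ C / (A - 1) := div_nonneg hC hAm.le
    linarith
  have h6 : 0 ≤ (A - 1) * Real.log Y - C := by
    have h7 : C / (A - 1) ≤ Real.log Y := by
      have : 0 ≤ C / (A * (ε / 8)) := by positivity
      linarith
    rw [div_le_iff₀ hAm] at h7
    linarith
  have h7 : C ≤ A * (ε / 8) * Real.log Y := by
    have h8 : C / (A * (ε / 8)) ≤ Real.log Y := by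
      have : 0 ≤ C / (A - 1) := div_nonneg hC hAm.le
      linarith
    rw [div_le_iff₀ (by positivity)] at h8
    linarith
  refine le_trans ?_ (mul_le_mul_of_nonneg_right hj h6)
  have h8 : (Y / (2 * (2 + ε) * A * Real.log Y) - 1) * ((A - 1) * Real.log Y - C) =
      (A - 1) / (2 * (2 + ε) * A) * Y - C / Real.log Y * (Y / (2 * (2 + ε) * A)) -
        (A - 1) * Real.log Y + C := by
    field_simp
    ring
  rw [h8]
  have h9 : C / Real.log Y ≤ A * (ε / 8) := by
    rw [div_le_iff₀ hlog]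
    exact h7
  have h10 : C / Real.log Y * (Y / (2 * (2 + ε) * A)) ≤ ε / 8 * Y := by
    calc C / Real.log Y * (Y / (2 * (2 + ε) * A)) ≤ A * (ε / 8) * (Y / (2 * (2 + ε) * A)) :=
          mul_le_mul_of_nonneg_right h9 (by positivity)
      _ = ε / 8 * Y * (1 / (2 * (2 + ε))) := by field_simp
      _ ≤ ε / 8 * Y * 1 := by
          apply mul_le_mul_of_nonneg_left _ (by positivity)
          rw [div_le_one (by positivity)]
          linarith
      _ = ε / 8 * Y := by ring
  have h11 : (A - 1) / (4 * A) - ε / 8 ≤ (A - 1) / (2 * (2 + ε) * A) := by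
    have h12 : (A - 1) / (4 * A) - (A - 1) / (2 * (2 + ε) * A) =
        (A - 1) / A * (ε / (4 * (2 + ε))) := by
      have : A ≠ 0 := by linarith
      have : (2 + ε) ≠ 0 := by linarith
      field_simp
      ring
    have h13 : (A - 1) / A ≤ 1 := by
      rw [div_le_one (by linarith)]
      linarith
    have h14 : ε / (4 * (2 + ε)) ≤ ε / 8 := by
      apply div_le_div_of_nonneg_left hε.le (by norm_num) (by linarith)
    have h15 : (A - 1) / A * (ε / (4 * (2 + ε))) ≤ 1 * (ε / 8) :=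
      mul_le_mul h13 h14 (by positivity) (by norm_num)
    linarith
  have h12 : ((A - 1) / (4 * A) - ε / 8) * Y ≤ (A - 1) / (2 * (2 + ε) * A) * Y :=
    mul_le_mul_of_nonneg_right h11 (by linarith)
  nlinarith

end Pool.Agent.CCL
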