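import Mathlib

import Pool.Agent.MRZ.Dft
import Pool.Agent.MRZ.MinSum

/-!
# CCL/DLS (copy of Sps/DLS): a dual large sieve inequality

If the `ρ_i` have pairwise distance `≥ 1/Q` modulo one, then
`∑_{x<X} |∑_i a_i e(ρ_i x)|² ≤ (X + 4 Q (1 + log Q)) ∑ |a_i|²`.

Proof. Expanding the square, the left side is at most `∑_{i,j} |a_i||a_j| |D(ρ_i-ρ_j)|`, `D(θ) = ∑_{x<X} e(θx)`,
`|D(θ)| ≤ X`, and `|D(θ)| ≤ 1/(2‖θ‖)` (`‖θ‖` the distance to the next integer; geometric sum,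
`|e(θ)-1| = 2|sin πθ| ≥ 4‖θ‖`). With `|a_i||a_j| ≤ (|a_i|²+|a_j|²)/2` it suffices to show for every `i`:
`∑_{j≠i} 1/(2‖ρ_i-ρ_j‖) ≤ 4Q(1+log Q)`. Let `t_j ∈ [-1/2,1/2]` be congruent to `ρ_j - ρ_i` mod 1. For `j ≠ i`, `1/Q ≤ |t_j| ≤ 1/2`, and
different `t_j` differ by at least `1/Q`. So for every `k ≥ 1` at most two `j` have `k ≤ Q|t_j| < k+1`
(one of each sign), and then `1/(2|t_j|) ≤ Q/(2k)`; only `k ≤ Q` occur. The sum is at most `∑_{k≤Q} 2·Q/(2k) ≤ Q(1+log Q)`.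
-/

namespace Pool.Agent.CCL

open Finset Pool.MRZ

/-- the Dirichlet kernel -/
noncomputable def dlsD (X : ℕ) (θ : ℝ) : ℂ := ∑ x ∈ Finset.range X, ee (θ * x)

theorem dlsD_le (X : ℕ) (θ : ℝ) : ‖dlsD X θ‖ ≤ X := by
  unfold dlsD
  refine (norm_sum_le _ _).trans ?_
  simp

theorem dlsD_neg (X : ℕ) (θ : ℝ) : ‖dlsD X (-θ)‖ = ‖dlsD X θ‖ := by
  have h : dlsD X (-θ) = (starRingEnd ℂ) (dlsD X θ) := by
    unfold dlsD
    rw [map_sum]
    refine Finset.sum_congr rfl fun x _ => ?_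
    rw [conj_ee, neg_mul]
  rw [h, Complex.norm_conj]

theorem dlsD_dz (X : ℕ) (θ : ℝ) (hd : 0 < dz θ) : ‖dlsD X θ‖ ≤ 1 / (2 * dz θ) := by
  have h2 := norm_ee_sub_one θ
  have h3 : ee θ ≠ 1 := by
    intro h
    rw [h, sub_self, norm_zero] at h2
    linarith
  have h4 : dlsD X θ = (ee θ ^ X - 1) / (ee θ - 1) := by
    unfold dlsD
    rw [← geom_sum_eq h3]
    exact Finset.sum_congr rfl fun m _ => ee_nat_mul θ m
  rw [h4, norm_div, div_le_div_iff₀ (by linarith) (by linarith), one_mul]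
  have h5 : ‖ee θ ^ X - 1‖ ≤ 2 := by
    refine (norm_sub_le _ _).trans ?_
    rw [norm_pow, norm_ee, one_pow, norm_one]
    norm_num
  calc ‖ee θ ^ X - 1‖ * (2 * dz θ) ≤ 2 * (2 * dz θ) :=
        mul_le_mul_of_nonneg_right h5 (by linarith)
    _ = 4 * dz θ := by ring
    _ ≤ _ := h2

theorem dls_harm (Q : ℕ) : ∑ k ∈ Finset.Icc 1 Q, (1 : ℝ) / k ≤ 1 + Real.log Q := by
  have h1 := harmonic_le_one_add_log Q
  rw [harmonic_eq_sum_Icc] at h1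
  push_cast at h1
  simpa [one_div] using h1

theorem dls_row {ι : Type*} [DecidableEq ι] (s : Finset ι) (ρ : ι → ℝ) (X Q : ℕ) (hQ : 1 ≤ Q)
    (hsp : ∀ i ∈ s, ∀ j ∈ s, i ≠ j → ∀ k : ℤ, 1 / (Q : ℝ) ≤ |ρ i - ρ j - k|) (i : ι) (hi : i ∈ s) :
    ∑ j ∈ s, ‖dlsD X (ρ i - ρ j)‖ ≤ X + 4 * Q * (1 + Real.log Q) := by
  have hQ0 : (0 : ℝ) < Q := by exact_mod_cast hQ
  rw [← Finset.add_sum_erase s _ hi]
  refine add_le_add (dlsD_le X _) ?_
  obtain ⟨t, ht⟩ : ∃ t : ι → ℝ, ∀ j, t j = ρ i - ρ j - round (ρ i - ρ j) := ⟨_, fun _ => rfl⟩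
  have htdz : ∀ j, |t j| = dz (ρ i - ρ j) := fun j => by rw [ht]; rfl
  have ht1 : ∀ j ∈ s.erase i, 1 / (Q : ℝ) ≤ |t j| := by
    intro j hj
    rw [Finset.mem_erase] at hj
    rw [ht]
    exact hsp i hi j hj.2 hj.1.symm _
  have hthalf : ∀ j, |t j| ≤ 1 / 2 := fun j => by rw [htdz]; exact dz_le_half _
  have htsep : ∀ j ∈ s.erase i, ∀ k ∈ s.erase i, j ≠ k → 1 / (Q : ℝ) ≤ |t j - t k| := by
    intro j hj k hk hjk
    rw [Finset.mem_erase] at hj hk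
    have h1 := hsp k hk.2 j hj.2 (Ne.symm hjk) (round (ρ i - ρ j) - round (ρ i - ρ k))
    have h2 : ρ k - ρ j - ((round (ρ i - ρ j) - round (ρ i - ρ k) : ℤ) : ℝ) = t j - t k := by
      rw [ht, ht]
      push_cast
      ring
    rw [h2] at h1
    exact h1
  obtain ⟨φ, hφ⟩ : ∃ φ : ι → Bool × ℕ, ∀ j, φ j = (decide (0 ≤ t j), ⌊(Q : ℝ) * |t j|⌋₊) :=
    ⟨_, fun _ => rfl⟩
  have hfl1 : ∀ j ∈ s.erase i, 1 ≤ ⌊(Q : ℝ) * |t j|⌋₊ := by
    intro j hj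
    apply Nat.le_floor
    have h1 := ht1 j hj
    rw [div_le_iff₀ hQ0] at h1
    push_cast
    linarith
  have hfl2 : ∀ j, ⌊(Q : ℝ) * |t j|⌋₊ ≤ Q := by
    intro j
    apply Nat.floor_le_of_le
    have h1 := hthalf j
    nlinarith
  have hinj : Set.InjOn φ (s.erase i : Set ι) := by
    intro j hj k hk hjk
    by_contra hne
    have hj' : j ∈ s.erase i := hj
    have hk' : k ∈ s.erase i := hk
    have h1 := htsep j hj' k hk' hne
    rw [hφ, hφ, Prod.mk.injEq] at hjk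
    obtain ⟨hs, hf⟩ := hjk
    rw [decide_eq_decide] at hs
    have g1 := Nat.floor_le (a := (Q : ℝ) * |t j|) (by positivity)
    have g2 := Nat.lt_floor_add_one ((Q : ℝ) * |t j|)
    have g3 := Nat.floor_le (a := (Q : ℝ) * |t k|) (by positivity)
    have g4 := Nat.lt_floor_add_one ((Q : ℝ) * |t k|)
    rw [hf] at g1 g2
    have h2 : abs ((Q : ℝ) * abs (t j) - Q * abs (t k)) < 1 := by
      rw [abs_lt]
      constructor <;> linarith
    have h3 : abs ((Q : ℝ) * abs (t j) - Q * abs (t k)) = Q * abs (t j - t k) := by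
      by_cases h0 : 0 ≤ t j
      · have h0' : 0 ≤ t k := hs.mp h0
        rw [abs_of_nonneg h0, abs_of_nonneg h0', ← mul_sub, abs_mul, abs_of_pos hQ0]
      · have h0' : ¬ 0 ≤ t k := fun h => h0 (hs.mpr h)
        push Not at h0 h0'
        rw [abs_of_neg h0, abs_of_neg h0', ← mul_sub, abs_mul, abs_of_pos hQ0]
        congr 1
        rw [← abs_neg]
        congr 1
        ring
    rw [h3] at h2
    rw [div_le_iff₀ hQ0] at h1
    linarith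
  obtain ⟨F, hF⟩ : ∃ F : Bool × ℕ → ℝ, ∀ y, F y = (Q : ℝ) / (2 * y.2) := ⟨_, fun _ => rfl⟩
  have hF0 : ∀ y, 0 ≤ F y := fun y => by rw [hF]; positivity
  have hterm : ∀ j ∈ s.erase i, ‖dlsD X (ρ i - ρ j)‖ ≤ F (φ j) := by
    intro j hj
    have h1 := ht1 j hj
    have h2 : 0 < |t j| := lt_of_lt_of_le (by positivity) h1
    have h3 : 0 < dz (ρ i - ρ j) := by rw [← htdz]; exact h2
    refine (dlsD_dz X _ h3).trans ?_
    rw [← htdz, hF, hφ]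
    have h4 := hfl1 j hj
    have h5 : (0 : ℝ) < (⌊(Q : ℝ) * |t j|⌋₊ : ℝ) := by exact_mod_cast h4
    have h6 := Nat.floor_le (a := (Q : ℝ) * |t j|) (by positivity)
    rw [div_le_div_iff₀ (by positivity) (by positivity)]
    nlinarith
  have hsub : (s.erase i).image φ ⊆ (Finset.univ : Finset Bool) ×ˢ Finset.Icc 1 Q := by
    intro y hy
    rw [Finset.mem_image] at hy
    obtain ⟨j, hj, rfl⟩ := hy
    rw [Finset.mem_product, hφ]
    exact ⟨Finset.mem_univ _, Finset.mem_Icc.mpr ⟨hfl1 j hj, hfl2 j⟩⟩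
  calc ∑ j ∈ s.erase i, ‖dlsD X (ρ i - ρ j)‖ ≤ ∑ j ∈ s.erase i, F (φ j) :=
        Finset.sum_le_sum hterm
    _ = ∑ y ∈ (s.erase i).image φ, F y := (Finset.sum_image hinj).symm
    _ ≤ ∑ y ∈ (Finset.univ : Finset Bool) ×ˢ Finset.Icc 1 Q, F y :=
        Finset.sum_le_sum_of_subset_of_nonneg hsub fun y _ _ => hF0 y
    _ = Q * ∑ k ∈ Finset.Icc 1 Q, (1 : ℝ) / k := by
        rw [Finset.sum_product, Fintype.sum_bool, Finset.mul_sum, ← Finset.sum_add_distrib]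
        refine Finset.sum_congr rfl fun k hk => ?_
        rw [hF, hF]
        have hk1 : (k : ℝ) ≠ 0 := by
          have := (Finset.mem_Icc.mp hk).1
          have : k ≠ 0 := by omega
          exact_mod_cast this
        field_simp
        ring
    _ ≤ Q * (1 + Real.log Q) := mul_le_mul_of_nonneg_left (dls_harm Q) hQ0.le
    _ ≤ 4 * Q * (1 + Real.log Q) := by
        have h1 : 0 ≤ Real.log Q := Real.log_nonneg (by exact_mod_cast hQ)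
        nlinarith

theorem dual_ls {ι : Type*} (s : Finset ι) (ρ : ι → ℝ) (a : ι → ℂ) (X Q : ℕ) (hQ : 1 ≤ Q)
    (hsp : ∀ i ∈ s, ∀ j ∈ s, i ≠ j → ∀ k : ℤ, 1 / (Q : ℝ) ≤ |ρ i - ρ j - k|) :
    ∑ x ∈ Finset.range X, ‖∑ i ∈ s, a i * ee (ρ i * x)‖ ^ 2 ≤
      (X + 4 * Q * (1 + Real.log Q)) * ∑ i ∈ s, ‖a i‖ ^ 2 := by
  classical
  have h1 : ((∑ x ∈ Finset.range X, ‖∑ i ∈ s, a i * ee (ρ i * x)‖ ^ 2 : ℝ) : ℂ) =
      ∑ i ∈ s, ∑ j ∈ s, a i * (starRingEnd ℂ) (a j) * dlsD X (ρ i - ρ j) := by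
    push_cast
    have h2 : ∀ x ∈ Finset.range X, ((‖∑ i ∈ s, a i * ee (ρ i * x)‖ : ℂ)) ^ 2 =
        ∑ i ∈ s, ∑ j ∈ s, a i * (starRingEnd ℂ) (a j) * ee ((ρ i - ρ j) * x) := by
      intro x _
      rw [← Complex.mul_conj', map_sum, Finset.sum_mul_sum]
      refine Finset.sum_congr rfl fun i _ => Finset.sum_congr rfl fun j _ => ?_
      rw [map_mul, conj_ee]
      have h3 : (ρ i - ρ j) * (x : ℝ) = ρ i * x + -(ρ j * x) := by ring
      rw [h3, ee_add]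
      ring
    rw [Finset.sum_congr rfl h2, Finset.sum_comm]
    refine Finset.sum_congr rfl fun i _ => ?_
    rw [Finset.sum_comm]
    refine Finset.sum_congr rfl fun j _ => ?_
    unfold dlsD
    rw [Finset.mul_sum]
  obtain ⟨K, hK⟩ : ∃ K : ι → ι → ℝ, ∀ i j, K i j = ‖dlsD X (ρ i - ρ j)‖ := ⟨_, fun _ _ => rfl⟩
  have hK0 : ∀ i j, 0 ≤ K i j := fun i j => by rw [hK]; exact norm_nonneg _
  have hKs : ∀ i j, K i j = K j i := fun i j => by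
    rw [hK, hK, ← dlsD_neg]
    congr 2
    ring
  have h4 : ∑ x ∈ Finset.range X, ‖∑ i ∈ s, a i * ee (ρ i * x)‖ ^ 2 ≤
      ∑ i ∈ s, ∑ j ∈ s, ‖a i‖ * ‖a j‖ * K i j := by
    have h5 : ‖((∑ x ∈ Finset.range X, ‖∑ i ∈ s, a i * ee (ρ i * x)‖ ^ 2 : ℝ) : ℂ)‖ ≤
        ∑ i ∈ s, ∑ j ∈ s, ‖a i‖ * ‖a j‖ * K i j := by
      rw [h1]
      refine norm_sum_le_of_le _ fun i _ => norm_sum_le_of_le _ fun j _ => ?_
      rw [norm_mul, norm_mul, Complex.norm_conj, hK]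
    rw [Complex.norm_real, Real.norm_eq_abs, abs_of_nonneg
      (Finset.sum_nonneg fun x _ => sq_nonneg _)] at h5
    exact h5
  have h6 : ∑ i ∈ s, ∑ j ∈ s, ‖a i‖ * ‖a j‖ * K i j ≤
      ∑ i ∈ s, ∑ j ∈ s, (‖a i‖ ^ 2 * K i j / 2 + ‖a j‖ ^ 2 * K i j / 2) := by
    refine Finset.sum_le_sum fun i _ => Finset.sum_le_sum fun j _ => ?_
    have h7 := hK0 i j
    nlinarith [mul_nonneg h7 (sq_nonneg (‖a i‖ - ‖a j‖))]
  have h8 : ∑ i ∈ s, ∑ j ∈ s, (‖a i‖ ^ 2 * K i j / 2 + ‖a j‖ ^ 2 * K i j / 2) =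
      ∑ i ∈ s, ‖a i‖ ^ 2 * ∑ j ∈ s, K i j := by
    have h9 : ∑ i ∈ s, ∑ j ∈ s, ‖a j‖ ^ 2 * K i j / 2 =
        ∑ i ∈ s, ∑ j ∈ s, ‖a i‖ ^ 2 * K i j / 2 := by
      rw [Finset.sum_comm]
      exact Finset.sum_congr rfl fun i _ => Finset.sum_congr rfl fun j _ => by rw [hKs j i]
    simp only [Finset.sum_add_distrib]
    rw [h9, ← Finset.sum_add_distrib]
    refine Finset.sum_congr rfl fun i _ => ?_
    rw [← Finset.sum_add_distrib, Finset.mul_sum]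
    exact Finset.sum_congr rfl fun j _ => by ring
  refine (h4.trans h6).trans ?_
  rw [h8, Finset.mul_sum]
  refine Finset.sum_le_sum fun i hi => ?_
  rw [mul_comm]
  refine mul_le_mul_of_nonneg_right ?_ (sq_nonneg _)
  have h10 := dls_row s ρ X Q hQ hsp i hi
  refine le_trans (le_of_eq ?_) h10
  exact Finset.sum_congr rfl fun j _ => hK i j

end Pool.Agent.CCL
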