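import Mathlib
import Pool.Agent.CCL.DLS
import Pool.Agent.MRZ.Dft
import Pool.Agent.MRZ.MinSum

/-!
# CCL/Sieve: the arithmetic large sieve, dual form, for products of `j` primes

If `S` is a set of integers in `[0, X)` which avoids, for every prime `ℓ` of a finite set `P` of primes
`≤ z`, a set `Ω ℓ` of `k < ℓ` residue classes, then
`|S| * ∑_{T ⊆ P, |T| = j} ∏_{ℓ ∈ T} k/(ℓ-k) ≤ X + 4 Q (1 + log Q)`, `Q = z^(2j)`.
-/

namespace Pool.Agent.CCL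

open Finset Pool.MRZ

/-- Fourier expansion of a mean zero function mod `ℓ` -/
theorem fourier_one (l : ℕ) (hl : 1 ≤ l) (f : ℕ → ℝ) (hper : ∀ n, f (n % l) = f n)
    (hmean : ∑ h ∈ range l, f h = 0) :
    ∃ c : ℕ → ℂ, (∀ n : ℕ, (f n : ℂ) = ∑ a ∈ Ico 1 l, c a * ee ((a : ℝ) / l * n)) ∧
      ∑ a ∈ Ico 1 l, ‖c a‖ ^ 2 = (∑ h ∈ range l, (f h) ^ 2) / l := by
  have hl0 : (l : ℝ) ≠ 0 := by positivity
  have hl0c : (l : ℂ) ≠ 0 := by exact_mod_cast (by omega : l ≠ 0)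
  obtain ⟨c, hc⟩ : ∃ c : ℕ → ℂ, ∀ a, c a =
      ∑ h ∈ range l, ((f h : ℂ) / l) * ee ((a : ℝ) / l * ((-(h : ℤ) : ℤ) : ℝ)) := ⟨_, fun _ => rfl⟩
  have hc0 : c 0 = 0 := by
    rw [hc]
    have h1 : ∀ h ∈ range l, ((f h : ℂ) / l) * ee (((0 : ℕ) : ℝ) / l * ((-(h : ℤ) : ℤ) : ℝ)) =
        (f h : ℂ) / l := by
      intro h _
      simp [ee_zero]
    rw [Finset.sum_congr rfl h1, ← Finset.sum_div, ← Complex.ofReal_sum, hmean]
    simp
  have hsplit : ∀ g : ℕ → ℂ, g 0 = 0 → ∑ a ∈ range l, g a = ∑ a ∈ Ico 1 l, g a := by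
    intro g hg
    rw [Finset.range_eq_Ico, Finset.sum_eq_sum_Ico_succ_bot (by omega : 0 < l), hg, zero_add]
  have hsplitR : ∀ g : ℕ → ℝ, g 0 = 0 → ∑ a ∈ range l, g a = ∑ a ∈ Ico 1 l, g a := by
    intro g hg
    rw [Finset.range_eq_Ico, Finset.sum_eq_sum_Ico_succ_bot (by omega : 0 < l), hg, zero_add]
  refine ⟨c, ?_, ?_⟩
  · intro n
    rw [← hsplit (fun a => c a * ee ((a : ℝ) / l * n)) (by simp [hc0])]
    have h2 : ∀ a ∈ range l, c a * ee ((a : ℝ) / l * n) =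
        ∑ h ∈ range l, ((f h : ℂ) / l) * ee ((a : ℝ) / l * (((n : ℤ) - h : ℤ) : ℝ)) := by
      intro a _
      rw [hc, Finset.sum_mul]
      refine Finset.sum_congr rfl fun h _ => ?_
      rw [mul_assoc, ← ee_add]
      congr 2
      push_cast
      ring
    rw [Finset.sum_congr rfl h2, Finset.sum_comm]
    simp_rw [← Finset.mul_sum]
    have h3 : ∀ h ∈ range l, ((f h : ℂ) / l) * ∑ a ∈ range l, ee ((a : ℝ) / l * (((n : ℤ) - h : ℤ) : ℝ)) =
        if h = n % l then (f n : ℂ) else 0 := by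
      intro h hh
      rw [dft_orth l hl]
      have hhl := Finset.mem_range.1 hh
      by_cases h4 : h = n % l
      · rw [if_pos h4, if_pos]
        · rw [h4, hper]
          field_simp
        · rw [h4]
          refine ⟨(n : ℤ) / l, ?_⟩
          have := Int.emod_add_mul_ediv (n : ℤ) l
          push_cast
          linarith
      · rw [if_neg h4, if_neg, mul_zero]
        intro h5
        apply h4
        have h6 : ((n : ℤ)) % l = h % l := (Int.modEq_iff_dvd.2 h5).symm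
        have h7 : (h : ℤ) % l = h := Int.emod_eq_of_lt (by positivity) (by exact_mod_cast hhl)
        rw [h7] at h6
        exact_mod_cast h6.symm
    rw [Finset.sum_congr rfl h3, Finset.sum_ite_eq' (range l) (n % l)]
    rw [if_pos (Finset.mem_range.2 (Nat.mod_lt _ (by omega)))]
  · rw [← hsplitR (fun a => ‖c a‖ ^ 2) (by simp [hc0])]
    have h4 := dft_parseval_gen (range l) (fun h => (-(h : ℤ) : ℤ)) (fun h => (f h : ℂ) / l) l hl (by
      intro i hi j hj hd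
      have hi' := Finset.mem_range.1 hi
      have hj' := Finset.mem_range.1 hj
      have h5 : (l : ℤ) ∣ (j : ℤ) - i := by
        have : (-(i : ℤ)) - (-(j : ℤ)) = (j : ℤ) - i := by ring
        simpa [this] using hd
      have h6 : (j : ℤ) - i = 0 := by
        apply Int.eq_zero_of_abs_lt_dvd h5
        rw [abs_lt]
        constructor <;> omega
      omega)
    have h7 : ∀ a ∈ range l, ‖c a‖ ^ 2 =
        ‖∑ h ∈ range l, ((f h : ℂ) / l) * ee ((a : ℝ) / l * ((-(h : ℤ) : ℤ) : ℝ))‖ ^ 2 := by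
      intro a _
      rw [hc]
    rw [Finset.sum_congr rfl h7, h4]
    have h8 : ∀ h ∈ range l, ‖(f h : ℂ) / l‖ ^ 2 = (f h) ^ 2 / (l : ℝ) ^ 2 := by
      intro h _
      rw [norm_div, div_pow, Complex.norm_real, Real.norm_eq_abs, sq_abs, Complex.norm_natCast]
    rw [Finset.sum_congr rfl h8, ← Finset.sum_div]
    field_simp

/-- a sum of fractions with distinct prime denominators is not an integer -/
theorem frac_sum_ne_int (P : Finset ℕ) (hP : ∀ l ∈ P, l.Prime) (b : ℕ → ℤ) (l0 : ℕ) (h0 : l0 ∈ P)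
    (hb : ¬ (l0 : ℤ) ∣ b l0) (k : ℤ) : ∑ l ∈ P, (b l : ℝ) / l ≠ k := by
  intro h
  have hpos : ∀ l ∈ P, (l : ℝ) ≠ 0 := fun l hl => by exact_mod_cast (hP l hl).ne_zero
  have h1 : (∑ l ∈ P, (b l : ℝ) / l) * ∏ l ∈ P, (l : ℝ) =
      ∑ l ∈ P, (b l : ℝ) * ∏ m ∈ P.erase l, (m : ℝ) := by
    rw [Finset.sum_mul]
    refine Finset.sum_congr rfl fun l hl => ?_
    rw [← Finset.mul_prod_erase P (fun m : ℕ => (m : ℝ)) hl]
    field_simp [hpos l hl]
  rw [h] at h1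
  have h2 : (k : ℤ) * ∏ l ∈ P, (l : ℤ) = ∑ l ∈ P, b l * ∏ m ∈ P.erase l, (m : ℤ) := by
    have h2' : (((k : ℤ) * ∏ l ∈ P, (l : ℤ) : ℤ) : ℝ) =
        ((∑ l ∈ P, b l * ∏ m ∈ P.erase l, (m : ℤ) : ℤ) : ℝ) := by
      push_cast
      exact h1
    exact_mod_cast h2'
  have h3 : (l0 : ℤ) ∣ b l0 * ∏ m ∈ P.erase l0, (m : ℤ) := by
    have h4 : b l0 * ∏ m ∈ P.erase l0, (m : ℤ) =
        (k : ℤ) * ∏ l ∈ P, (l : ℤ) - ∑ l ∈ P.erase l0, b l * ∏ m ∈ P.erase l, (m : ℤ) := by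
      rw [h2, ← Finset.add_sum_erase P _ h0]
      ring
    rw [h4]
    apply dvd_sub
    · exact Dvd.dvd.mul_left (Finset.dvd_prod_of_mem _ h0) _
    · apply Finset.dvd_sum
      intro l hl
      apply Dvd.dvd.mul_left
      apply Finset.dvd_prod_of_mem (fun m : ℕ => (m : ℤ))
      rw [Finset.mem_erase] at hl ⊢
      exact ⟨fun h5 => hl.1 h5.symm, h0⟩
  have hp : Prime (l0 : ℤ) := Nat.prime_iff_prime_int.1 (hP l0 h0)
  rcases hp.dvd_or_dvd h3 with h5 | h5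
  · exact hb h5
  · rw [Prime.dvd_finsetProd_iff hp] at h5
    obtain ⟨m, hm, hd⟩ := h5
    rw [Finset.mem_erase] at hm
    have h6 : l0 ∣ m := by exact_mod_cast hd
    exact hm.1 ((Nat.prime_dvd_prime_iff_eq (hP l0 h0) (hP m hm.2)).1 h6).symm

theorem frac_sum_den (T : Finset ℕ) (hT : ∀ l ∈ T, l ≠ 0) (b : ℕ → ℤ) :
    ∃ A : ℤ, ∑ l ∈ T, (b l : ℝ) / l = A / ∏ l ∈ T, (l : ℝ) := by
  refine ⟨∑ l ∈ T, b l * ∏ m ∈ T.erase l, (m : ℤ), ?_⟩
  have hpos : ∀ l ∈ T, (l : ℝ) ≠ 0 := fun l hl => by exact_mod_cast hT l hl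
  have hprod : ∏ l ∈ T, (l : ℝ) ≠ 0 := Finset.prod_ne_zero_iff.2 hpos
  rw [eq_div_iff hprod, Finset.sum_mul]
  push_cast
  refine Finset.sum_congr rfl fun l hl => ?_
  rw [← Finset.mul_prod_erase T (fun m : ℕ => (m : ℝ)) hl]
  field_simp [hpos l hl]

/-- the index set of the expansion -/
def idx (P : Finset ℕ) (j : ℕ) : Finset (Σ T : Finset ℕ, ((a : ℕ) → a ∈ T → ℕ)) :=
  (P.powersetCard j).sigma (fun T => T.pi (fun l => Ico 1 l))

/-- the numerators as a function on the natural numbers -/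
def num (i : Σ T : Finset ℕ, ((a : ℕ) → a ∈ T → ℕ)) (l : ℕ) : ℕ :=
  if h : l ∈ i.1 then i.2 l h else 0

/-- the frequency -/
noncomputable def frq (i : Σ T : Finset ℕ, ((a : ℕ) → a ∈ T → ℕ)) : ℝ :=
  ∑ l ∈ i.1, (num i l : ℝ) / l

theorem frq_spaced (P : Finset ℕ) (hP : ∀ l ∈ P, l.Prime) (j z : ℕ) (hz : ∀ l ∈ P, l ≤ z)
    (i : Σ T : Finset ℕ, ((a : ℕ) → a ∈ T → ℕ)) (hi : i ∈ idx P j)
    (i' : Σ T : Finset ℕ, ((a : ℕ) → a ∈ T → ℕ)) (hi' : i' ∈ idx P j) (hne : i ≠ i') (k : ℤ) :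
    1 / ((z ^ (2 * j) : ℕ) : ℝ) ≤ |frq i - frq i' - k| := by
  classical
  obtain ⟨T, p⟩ := i
  obtain ⟨T', p'⟩ := i'
  simp only [idx, Finset.mem_sigma, Finset.mem_powersetCard, Finset.mem_pi, Finset.mem_Ico] at hi hi'
  obtain ⟨⟨hTP, hTj⟩, hp⟩ := hi
  obtain ⟨⟨hTP', hTj'⟩, hp'⟩ := hi'
  have hnum : ∀ l, ∀ h : l ∈ T, num ⟨T, p⟩ l = p l h := fun l h => by simp [num, h]
  have hnum0 : ∀ l, l ∉ T → num ⟨T, p⟩ l = 0 := fun l h => by simp [num, h]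
  have hnum' : ∀ l, ∀ h : l ∈ T', num ⟨T', p'⟩ l = p' l h := fun l h => by simp [num, h]
  have hnum0' : ∀ l, l ∉ T' → num ⟨T', p'⟩ l = 0 := fun l h => by simp [num, h]
  have hlt : ∀ l ∈ P, num ⟨T, p⟩ l < l := by
    intro l hl
    by_cases h : l ∈ T
    · rw [hnum l h]; exact (hp l h).2
    · rw [hnum0 l h]; exact (hP l hl).pos
  have hlt' : ∀ l ∈ P, num ⟨T', p'⟩ l < l := by
    intro l hl
    by_cases h : l ∈ T'
    · rw [hnum' l h]; exact (hp' l h).2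
    · rw [hnum0' l h]; exact (hP l hl).pos
  -- a prime where the numerators differ
  obtain ⟨l0, hl0, hd⟩ : ∃ l0 ∈ P, num ⟨T, p⟩ l0 ≠ num ⟨T', p'⟩ l0 := by
    by_contra hcon
    push Not at hcon
    have hTT : T = T' := by
      ext l
      constructor
      · intro h
        by_contra h'
        have h1 := hcon l (hTP h)
        rw [hnum l h, hnum0' l h'] at h1
        have := (hp l h).1
        omega
      · intro h
        by_contra h'
        have h1 := hcon l (hTP' h)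
        rw [hnum' l h, hnum0 l h'] at h1
        have := (hp' l h).1
        omega
    subst hTT
    apply hne
    congr 1
    funext l h
    have h1 := hcon l (hTP h)
    rwa [hnum l h, hnum' l h] at h1
  have hfrq : frq ⟨T, p⟩ = ∑ l ∈ P, (num ⟨T, p⟩ l : ℝ) / l := by
    unfold frq
    refine Finset.sum_subset hTP fun l _ h => ?_
    rw [hnum0 l h]
    simp
  have hfrq' : frq ⟨T', p'⟩ = ∑ l ∈ P, (num ⟨T', p'⟩ l : ℝ) / l := by
    unfold frq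
    refine Finset.sum_subset hTP' fun l _ h => ?_
    rw [hnum0' l h]
    simp
  have hdiff : frq ⟨T, p⟩ - frq ⟨T', p'⟩ =
      ∑ l ∈ P, (((num ⟨T, p⟩ l : ℤ) - (num ⟨T', p'⟩ l : ℤ) : ℤ) : ℝ) / l := by
    rw [hfrq, hfrq', ← Finset.sum_sub_distrib]
    refine Finset.sum_congr rfl fun l _ => ?_
    push_cast
    ring
  have hne0 : frq ⟨T, p⟩ - frq ⟨T', p'⟩ - k ≠ 0 := by
    intro h
    have h1 : frq ⟨T, p⟩ - frq ⟨T', p'⟩ = k := by linarith
    rw [hdiff] at h1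
    refine frac_sum_ne_int P hP (fun l => (num ⟨T, p⟩ l : ℤ) - (num ⟨T', p'⟩ l : ℤ)) l0 hl0 ?_ k h1
    intro hdv
    have h2 := hlt l0 hl0
    have h3 := hlt' l0 hl0
    have h4 : (num ⟨T, p⟩ l0 : ℤ) - (num ⟨T', p'⟩ l0 : ℤ) = 0 := by
      apply Int.eq_zero_of_abs_lt_dvd hdv
      rw [abs_lt]
      constructor <;> omega
    apply hd
    omega
  -- denominators
  obtain ⟨A, hA⟩ := frac_sum_den T (fun l hl => (hP l (hTP hl)).ne_zero)
    (fun l => (num ⟨T, p⟩ l : ℤ))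
  obtain ⟨A', hA'⟩ := frac_sum_den T' (fun l hl => (hP l (hTP' hl)).ne_zero)
    (fun l => (num ⟨T', p'⟩ l : ℤ))
  have hq : (0 : ℝ) < ∏ l ∈ T, (l : ℝ) :=
    Finset.prod_pos fun l hl => by exact_mod_cast (hP l (hTP hl)).pos
  have hq' : (0 : ℝ) < ∏ l ∈ T', (l : ℝ) :=
    Finset.prod_pos fun l hl => by exact_mod_cast (hP l (hTP' hl)).pos
  have hqz : ∏ l ∈ T, (l : ℝ) ≤ (z : ℝ) ^ j := by
    rw [← hTj]
    rw [← Finset.prod_const]
    exact Finset.prod_le_prod (fun l _ => by positivity) (fun l hl => by exact_mod_cast hz l (hTP hl))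
  have hqz' : ∏ l ∈ T', (l : ℝ) ≤ (z : ℝ) ^ j := by
    rw [← hTj']
    rw [← Finset.prod_const]
    exact Finset.prod_le_prod (fun l _ => by positivity) (fun l hl => by exact_mod_cast hz l (hTP' hl))
  obtain ⟨q, hqe⟩ : ∃ q : ℝ, q = ∏ l ∈ T, (l : ℝ) := ⟨_, rfl⟩
  obtain ⟨q', hqe'⟩ : ∃ q' : ℝ, q' = ∏ l ∈ T', (l : ℝ) := ⟨_, rfl⟩
  have hqi : q = ((∏ l ∈ T, (l : ℤ) : ℤ) : ℝ) := by rw [hqe]; push_cast; rfl
  have hqi' : q' = ((∏ l ∈ T', (l : ℤ) : ℤ) : ℝ) := by rw [hqe']; push_cast; rfl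
  have hf1 : frq ⟨T, p⟩ = A / q := by
    rw [hqe, ← hA]
    unfold frq
    push_cast
    rfl
  have hf1' : frq ⟨T', p'⟩ = A' / q' := by
    rw [hqe', ← hA']
    unfold frq
    push_cast
    rfl
  rw [← hqe] at hq hqz
  rw [← hqe'] at hq' hqz'
  obtain ⟨M, hM⟩ : ∃ M : ℤ, (M : ℝ) = (frq ⟨T, p⟩ - frq ⟨T', p'⟩ - k) * (q * q') := by
    refine ⟨A * (∏ l ∈ T', (l : ℤ)) - A' * (∏ l ∈ T, (l : ℤ)) -
      k * ((∏ l ∈ T, (l : ℤ)) * ∏ l ∈ T', (l : ℤ)), ?_⟩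
    have h1 : ((A * (∏ l ∈ T', (l : ℤ)) - A' * (∏ l ∈ T, (l : ℤ)) -
      k * ((∏ l ∈ T, (l : ℤ)) * ∏ l ∈ T', (l : ℤ)) : ℤ) : ℝ) =
        A * ((∏ l ∈ T', (l : ℤ) : ℤ) : ℝ) - A' * ((∏ l ∈ T, (l : ℤ) : ℤ) : ℝ) -
        k * (((∏ l ∈ T, (l : ℤ) : ℤ) : ℝ) * ((∏ l ∈ T', (l : ℤ) : ℤ) : ℝ)) := by
      push_cast
      ring
    rw [h1, ← hqi, ← hqi', hf1, hf1']
    field_simp
  have hM1 : (1 : ℝ) ≤ |(M : ℝ)| := by
    have h1 : M ≠ 0 := by
      intro h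
      rw [h] at hM
      have h2 : (frq ⟨T, p⟩ - frq ⟨T', p'⟩ - k) * (q * q') = 0 := by
        rw [← hM]; simp
      rcases mul_eq_zero.1 h2 with h3 | h3
      · exact hne0 h3
      · exact absurd h3 (mul_pos hq hq').ne'
    exact_mod_cast Int.one_le_abs h1
  rw [hM, abs_mul, abs_of_pos (mul_pos hq hq')] at hM1
  have hzz : q * q' ≤ ((z ^ (2 * j) : ℕ) : ℝ) := by
    push_cast
    rw [two_mul, pow_add]
    exact mul_le_mul hqz hqz' hq'.le (by positivity)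
  have hz0 : (0 : ℝ) < ((z ^ (2 * j) : ℕ) : ℝ) := lt_of_lt_of_le (mul_pos hq hq') hzz
  rw [div_le_iff₀ hz0]
  exact hM1.trans (mul_le_mul_of_nonneg_left hzz (abs_nonneg _))

/-- **large sieve, dual form** -/
theorem sieve_dual (P : Finset ℕ) (hP : ∀ l ∈ P, l.Prime) (Om : ℕ → Finset ℕ) (k : ℕ)
    (hOm : ∀ l ∈ P, Om l ⊆ range l ∧ (Om l).card = k ∧ k < l) (j z X : ℕ) (hz : ∀ l ∈ P, l ≤ z)
    (hz1 : 1 ≤ z) (S : Finset ℕ) (hS : ∀ m ∈ S, m < X ∧ ∀ l ∈ P, m % l ∉ Om l) :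
    (S.card : ℝ) * (∑ T ∈ P.powersetCard j, ∏ l ∈ T, (k : ℝ) / ((l : ℝ) - k)) ≤
      X + 4 * ((z ^ (2 * j) : ℕ) : ℝ) * (1 + Real.log ((z ^ (2 * j) : ℕ) : ℝ)) := by
  classical
  obtain ⟨f, hf⟩ : ∃ f : ℕ → ℕ → ℝ, ∀ l n, f l n =
      if n % l ∈ Om l then -1 else (k : ℝ) / ((l : ℝ) - k) := ⟨_, fun _ _ => rfl⟩
  have hlk : ∀ l ∈ P, (0 : ℝ) < (l : ℝ) - k := fun l hl => by
    have : (k : ℝ) < l := by exact_mod_cast (hOm l hl).2.2
    linarith
  have hcount : ∀ l ∈ P, ∀ u v : ℝ, ∑ h ∈ range l, (if h % l ∈ Om l then u else v) =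
      k * u + ((l : ℝ) - k) * v := by
    intro l hl u v
    have h1 : ∀ h ∈ range l, (if h % l ∈ Om l then u else v) = if h ∈ Om l then u else v := by
      intro h hh
      rw [Nat.mod_eq_of_lt (Finset.mem_range.1 hh)]
    rw [Finset.sum_congr rfl h1, Finset.sum_ite, Finset.sum_const, Finset.sum_const]
    have h2 : (range l).filter (fun h => h ∈ Om l) = Om l := by
      ext h
      simp only [Finset.mem_filter]
      exact ⟨fun h3 => h3.2, fun h3 => ⟨(hOm l hl).1 h3, h3⟩⟩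
    have h3 : ((range l).filter (fun h => h ∉ Om l)).card = l - k := by
      have h4 : (range l).filter (fun h => h ∉ Om l) = range l \ Om l := by
        ext h
        simp
      rw [h4, Finset.card_sdiff_of_subset (hOm l hl).1, Finset.card_range, (hOm l hl).2.1]
    rw [h2, h3, (hOm l hl).2.1, nsmul_eq_mul, nsmul_eq_mul,
      Nat.cast_sub (hOm l hl).2.2.le]
  have hfour : ∀ l ∈ P, ∃ c : ℕ → ℂ,
      (∀ n : ℕ, (f l n : ℂ) = ∑ a ∈ Ico 1 l, c a * ee ((a : ℝ) / l * n)) ∧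
      ∑ a ∈ Ico 1 l, ‖c a‖ ^ 2 = (k : ℝ) / ((l : ℝ) - k) := by
    intro l hl
    have hl1 : 1 ≤ l := (hP l hl).pos
    have hl0 : (l : ℝ) ≠ 0 := by positivity
    obtain ⟨c, h1, h2⟩ := fourier_one l hl1 (f l) (fun n => by simp only [hf, Nat.mod_mod]) (by
      simp only [hf]
      rw [hcount l hl]
      have := (hlk l hl).ne'
      field_simp
      ring)
    refine ⟨c, h1, ?_⟩
    rw [h2]
    have h3 : ∀ h ∈ range l, (f l h) ^ 2 =
        if h % l ∈ Om l then (1 : ℝ) else ((k : ℝ) / ((l : ℝ) - k)) ^ 2 := by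
      intro h _
      rw [hf]
      split_ifs <;> norm_num
    rw [Finset.sum_congr rfl h3, hcount l hl]
    have := (hlk l hl).ne'
    field_simp
    ring
  choose! c hc1 hc2 using hfour
  obtain ⟨L, hL⟩ : ∃ L : ℝ, L = ∑ T ∈ P.powersetCard j, ∏ l ∈ T, (k : ℝ) / ((l : ℝ) - k) :=
    ⟨_, rfl⟩
  rw [← hL]
  obtain ⟨R, hR⟩ : ∃ R : ℝ, R = X + 4 * ((z ^ (2 * j) : ℕ) : ℝ) *
    (1 + Real.log ((z ^ (2 * j) : ℕ) : ℝ)) := ⟨_, rfl⟩
  rw [← hR]
  have hQ1 : 1 ≤ z ^ (2 * j) := Nat.one_le_pow _ _ hz1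
  have hR0 : 0 ≤ R := by
    rw [hR]
    have : 0 ≤ Real.log ((z ^ (2 * j) : ℕ) : ℝ) := Real.log_nonneg (by exact_mod_cast hQ1)
    positivity
  have hL0 : 0 ≤ L := by
    rw [hL]
    refine Finset.sum_nonneg fun T hT => Finset.prod_nonneg fun l hl => ?_
    exact div_nonneg (by positivity) (hlk l ((Finset.mem_powersetCard.1 hT).1 hl)).le
  -- the coefficients
  obtain ⟨a, ha⟩ : ∃ a : (Σ T : Finset ℕ, ((a : ℕ) → a ∈ T → ℕ)) → ℂ, ∀ i, a i =
      ∏ x ∈ i.1.attach, c x.1 (i.2 x.1 x.2) := ⟨_, fun _ => rfl⟩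
  have hdls := dual_ls (idx P j) frq a X (z ^ (2 * j)) hQ1
    (fun i hi i' hi' hne k => frq_spaced P hP j z hz i hi i' hi' hne k)
  rw [← hR] at hdls
  have hsuma : ∑ i ∈ idx P j, ‖a i‖ ^ 2 = L := by
    rw [idx, Finset.sum_sigma, hL]
    refine Finset.sum_congr rfl fun T hT => ?_
    have hTP := (Finset.mem_powersetCard.1 hT).1
    have h1 : ∏ l ∈ T, (k : ℝ) / ((l : ℝ) - k) = ∏ l ∈ T, ∑ b ∈ Ico 1 l, ‖c l b‖ ^ 2 :=
      Finset.prod_congr rfl fun l hl => (hc2 l (hTP hl)).symm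
    rw [h1, Finset.prod_sum]
    refine Finset.sum_congr rfl fun p _ => ?_
    rw [ha, norm_prod, Finset.prod_pow]
  have hF : ∀ n : ℕ, ∑ i ∈ idx P j, a i * ee (frq i * n) =
      ((∑ T ∈ P.powersetCard j, ∏ l ∈ T, f l n : ℝ) : ℂ) := by
    intro n
    rw [idx, Finset.sum_sigma]
    push_cast
    refine Finset.sum_congr rfl fun T hT => ?_
    have hTP := (Finset.mem_powersetCard.1 hT).1
    have h1 : ∏ l ∈ T, (f l n : ℂ) = ∏ l ∈ T, ∑ b ∈ Ico 1 l, c l b * ee ((b : ℝ) / l * n) :=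
      Finset.prod_congr rfl fun l hl => hc1 l (hTP hl) n
    rw [h1, Finset.prod_sum]
    refine Finset.sum_congr rfl fun p _ => ?_
    rw [ha, Finset.prod_mul_distrib]
    congr 1
    have h2 : frq ⟨T, p⟩ = ∑ x ∈ T.attach, (p x.1 x.2 : ℝ) / x.1 := by
      unfold frq
      rw [← Finset.sum_attach T]
      refine Finset.sum_congr rfl fun x _ => ?_
      simp [num, x.2]
    rw [h2, Finset.sum_mul]
    have h3 : ∀ s : Finset {x // x ∈ T}, ee (∑ x ∈ s, (p x.1 x.2 : ℝ) / x.1 * n) =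
        ∏ x ∈ s, ee ((p x.1 x.2 : ℝ) / x.1 * n) := by
      intro s
      induction s using Finset.induction_on with
      | empty => simp [ee_zero]
      | insert x s hx ih => rw [Finset.sum_insert hx, Finset.prod_insert hx, ee_add, ih]
    rw [h3]
  rw [hsuma] at hdls
  have hSX : ∑ m ∈ S, L ^ 2 ≤ ∑ x ∈ range X, ‖∑ i ∈ idx P j, a i * ee (frq i * x)‖ ^ 2 := by
    have hsub : S ⊆ range X := fun m hm => Finset.mem_range.2 (hS m hm).1
    refine le_trans ?_ (Finset.sum_le_sum_of_subset_of_nonneg hsub (fun _ _ _ => sq_nonneg _))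
    refine Finset.sum_le_sum fun m hm => ?_
    rw [hF, Complex.norm_real, Real.norm_eq_abs, sq_abs]
    have h1 : ∑ T ∈ P.powersetCard j, ∏ l ∈ T, f l m = L := by
      rw [hL]
      refine Finset.sum_congr rfl fun T hT => Finset.prod_congr rfl fun l hl => ?_
      rw [hf, if_neg ((hS m hm).2 l ((Finset.mem_powersetCard.1 hT).1 hl))]
    rw [h1]
  rw [Finset.sum_const, nsmul_eq_mul] at hSX
  have h5 := hSX.trans hdls
  by_cases hL1 : L = 0
  · rw [hL1, mul_zero]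
    exact hR0
  · have hLpos : 0 < L := lt_of_le_of_ne hL0 (Ne.symm hL1)
    have h6 : (S.card * L) * L ≤ R * L := by
      calc (S.card * L) * L = S.card * L ^ 2 := by ring
        _ ≤ R * L := h5
    exact le_of_mul_le_mul_right h6 hLpos

end Pool.Agent.CCL
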