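import Mathlib
import Pool.Agent.CCL.Sieve

/-!
# CCL/Count: counting starting points of long chains

Sieving primes: primes `l ≤ z` with `l > k` for which `2` has order at least `k`. At most `k^2 + k + 2`
primes `≤ z` are lost. `m = p + u` (`u = 1` first kind, `u = -1` second kind) avoids the `k` classes
`u 2^(-n)`, `n < k`, modulo each of them.
-/

namespace Pool.Agent.CCL

open Finset Real

/-- `(n/j)^j ≤ C(n,j)` -/
theorem pow_le_choose' (j : ℕ) : ∀ n : ℕ, j ≤ n → ((n : ℝ) / j) ^ j ≤ (n.choose j : ℝ) := by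
  induction j with
  | zero => intro n _; simp
  | succ j ih =>
    intro n hn
    obtain ⟨m, rfl⟩ : ∃ m, n = m + 1 := ⟨n - 1, by omega⟩
    have hjm : j ≤ m := by omega
    have h1 := ih m hjm
    have h2 : ((m + 1).choose (j + 1) : ℝ) = ((m : ℝ) + 1) / ((j : ℝ) + 1) * (m.choose j : ℝ) := by
      have h3 := Nat.add_one_mul_choose_eq m j
      have h4 : ((m : ℝ) + 1) * (m.choose j : ℝ) = ((m + 1).choose (j + 1) : ℝ) * ((j : ℝ) + 1) := by
        exact_mod_cast h3
      have h5 : ((j : ℝ) + 1) ≠ 0 := by positivity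
      field_simp
      linarith
    rw [h2, pow_succ]
    push_cast
    rw [mul_comm]
    refine mul_le_mul_of_nonneg_left ?_ (by positivity)
    rcases Nat.eq_zero_or_pos j with h0 | h0
    · subst h0; simp
    · refine le_trans ?_ h1
      have hj0 : (0 : ℝ) < j := by exact_mod_cast h0
      have hjm' : (j : ℝ) ≤ m := by exact_mod_cast hjm
      apply pow_le_pow_left₀ (by positivity)
      rw [div_le_div_iff₀ (by positivity) hj0]
      nlinarith

/-- number of prime factors of `2^n - 1` -/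
theorem card_primeFactors_two_pow_sub_one (n : ℕ) : (2 ^ n - 1).primeFactors.card ≤ n := by
  rcases Nat.eq_zero_or_pos n with h0 | h0
  · subst h0; simp
  have hpos : 2 ^ n - 1 ≠ 0 := by
    have : 2 ≤ 2 ^ n := by
      calc 2 = 2 ^ 1 := by norm_num
        _ ≤ 2 ^ n := Nat.pow_le_pow_right (by norm_num) h0
    omega
  have h1 : 2 ^ (2 ^ n - 1).primeFactors.card ≤ ∏ p ∈ (2 ^ n - 1).primeFactors, p := by
    rw [← Finset.prod_const]
    exact Finset.prod_le_prod' (fun p hp => (Nat.prime_of_mem_primeFactors hp).two_le)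
  have h2 : ∏ p ∈ (2 ^ n - 1).primeFactors, p ≤ 2 ^ n - 1 :=
    Nat.le_of_dvd (Nat.pos_of_ne_zero hpos) (Nat.prod_primeFactors_dvd _)
  have h3 : 2 ^ (2 ^ n - 1).primeFactors.card ≤ 2 ^ n := by omega
  exact (Nat.pow_le_pow_iff_right (by norm_num)).1 h3

/-- the sieving primes -/
noncomputable def PS (k z : ℕ) : Finset ℕ := by
  classical
  exact (range (z + 1)).filter
    (fun l => l.Prime ∧ k < l ∧ l ≠ 2 ∧ ∀ n, 0 < n → n < k → ¬ l ∣ 2 ^ n - 1)

theorem mem_PS (k z l : ℕ) : l ∈ PS k z ↔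
    l ≤ z ∧ l.Prime ∧ k < l ∧ l ≠ 2 ∧ ∀ n, 0 < n → n < k → ¬ l ∣ 2 ^ n - 1 := by
  classical
  simp only [PS, Finset.mem_filter, Finset.mem_range, Nat.lt_succ_iff]

theorem PS_card (k z : ℕ) : Nat.primeCounting z ≤ (PS k z).card + (k ^ 2 + k + 2) := by
  classical
  rw [← Nat.primesLE_card_eq_primeCounting]
  have hsub : Nat.primesLE z ⊆ PS k z ∪ (range (k + 1) ∪ ({2} ∪
      (range k).biUnion (fun n => (2 ^ n - 1).primeFactors))) := by
    intro l hl
    have hl' : l ≤ z ∧ l.Prime := by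
      rw [Nat.mem_primesLE] at hl
      exact hl
    by_contra hcon
    simp only [Finset.mem_union, not_or, Finset.mem_range, Finset.mem_singleton,
      Finset.mem_biUnion, not_exists, not_and] at hcon
    obtain ⟨h1, h2, h3, h4⟩ := hcon
    apply h1
    rw [mem_PS]
    refine ⟨hl'.1, hl'.2, by omega, h3, ?_⟩
    intro n hn0 hnk hd
    apply h4 n hnk
    rw [Nat.mem_primeFactors]
    refine ⟨hl'.2, hd, ?_⟩
    have : 2 ≤ 2 ^ n := by
      calc 2 = 2 ^ 1 := by norm_num
        _ ≤ 2 ^ n := Nat.pow_le_pow_right (by norm_num) hn0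
    omega
  refine (Finset.card_le_card hsub).trans ?_
  refine (Finset.card_union_le _ _).trans ?_
  refine Nat.add_le_add_left ?_ _
  refine (Finset.card_union_le _ _).trans ?_
  rw [Finset.card_range]
  have h5 : (({2} : Finset ℕ) ∪ (range k).biUnion (fun n => (2 ^ n - 1).primeFactors)).card ≤
      1 + k ^ 2 := by
    refine (Finset.card_union_le _ _).trans ?_
    rw [Finset.card_singleton]
    refine Nat.add_le_add_left ?_ _
    refine Finset.card_biUnion_le.trans ?_
    have h6 : ∀ n ∈ range k, (2 ^ n - 1).primeFactors.card ≤ k := fun n hn =>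
      (card_primeFactors_two_pow_sub_one n).trans (Finset.mem_range.1 hn).le
    refine (Finset.sum_le_sum h6).trans ?_
    rw [Finset.sum_const, Finset.card_range, smul_eq_mul, sq]
  omega

/-- the removed classes -/
noncomputable def Om (u : ℤ) (k l : ℕ) : Finset ℕ := by
  classical
  exact (range l).filter (fun m => ∃ n < k, (2 : ZMod l) ^ n * (m : ZMod l) = (u : ZMod l))

theorem mem_Om (u : ℤ) (k l m : ℕ) : m ∈ Om u k l ↔
    m < l ∧ ∃ n < k, (2 : ZMod l) ^ n * (m : ZMod l) = (u : ZMod l) := by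
  classical
  simp [Om]

theorem Om_card (u : ℤ) (hu : u = 1 ∨ u = -1) (k z l : ℕ) (hl : l ∈ PS k z) :
    (Om u k l).card = k := by
  classical
  rw [mem_PS] at hl
  obtain ⟨-, hp, hkl, hl2, hord⟩ := hl
  haveI : Fact l.Prime := ⟨hp⟩
  have h2 : (2 : ZMod l) ≠ 0 := by
    intro h
    have h3 : ((2 : ℕ) : ZMod l) = 0 := by exact_mod_cast h
    rw [ZMod.natCast_eq_zero_iff] at h3
    exact hl2 ((Nat.prime_dvd_prime_iff_eq hp Nat.prime_two).1 h3)
  have hu0 : (u : ZMod l) ≠ 0 := by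
    rcases hu with rfl | rfl
    · simp
    · simp
  have hinj : ∀ a b : ℕ, a < k → b < k → a ≤ b → (2 : ZMod l) ^ a = 2 ^ b → a = b := by
    intro a b ha hb hab h
    by_contra hne
    have hlt : a < b := lt_of_le_of_ne hab hne
    obtain ⟨d, rfl⟩ : ∃ d, b = a + d := ⟨b - a, by omega⟩
    rw [pow_add] at h
    have h3 : (2 : ZMod l) ^ d = 1 := by
      have h4 : (2 : ZMod l) ^ a * 1 = 2 ^ a * 2 ^ d := by rw [mul_one]; exact h
      exact (mul_left_cancel₀ (pow_ne_zero a h2) h4).symm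
    apply hord d (by omega) (by omega)
    have h5 : ((2 ^ d - 1 : ℕ) : ZMod l) = 0 := by
      rw [Nat.cast_sub Nat.one_le_two_pow]
      push_cast
      rw [h3]
      simp
    exact (ZMod.natCast_eq_zero_iff _ _).1 h5
  have himg : Om u k l = (range k).image (fun n => ((u : ZMod l) * ((2 : ZMod l) ^ n)⁻¹).val) := by
    ext m
    rw [mem_Om, Finset.mem_image]
    constructor
    · rintro ⟨hm, n, hn, h⟩
      refine ⟨n, Finset.mem_range.2 hn, ?_⟩
      have h3 : (u : ZMod l) * ((2 : ZMod l) ^ n)⁻¹ = (m : ZMod l) := by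
        rw [← h]
        field_simp
      rw [h3, ZMod.val_natCast, Nat.mod_eq_of_lt hm]
    · rintro ⟨n, hn, rfl⟩
      refine ⟨ZMod.val_lt _, n, Finset.mem_range.1 hn, ?_⟩
      rw [ZMod.natCast_zmod_val]
      field_simp
  rw [himg, Finset.card_image_of_injOn, Finset.card_range]
  intro a ha b hb hab
  have ha' := Finset.mem_range.1 (Finset.mem_coe.1 ha)
  have hb' := Finset.mem_range.1 (Finset.mem_coe.1 hb)
  have h3 : (u : ZMod l) * ((2 : ZMod l) ^ a)⁻¹ = (u : ZMod l) * ((2 : ZMod l) ^ b)⁻¹ :=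
    ZMod.val_injective l hab
  have h4 : (2 : ZMod l) ^ a = 2 ^ b := inv_injective (mul_left_cancel₀ hu0 h3)
  rcases le_total a b with h5 | h5
  · exact hinj a b ha' hb' h5 h4
  · exact (hinj b a hb' ha' h5 h4.symm).symm

/-- long chains: the terms `2^n (p+u) - u`, `n < k`, are prime (`u = 1`: first kind, `u = -1`: second
kind), as integers -/
def LongI (u : ℤ) (k p : ℕ) : Prop :=
  ∀ n : ℕ, n < k → Prime ((2 : ℤ) ^ n * ((p : ℤ) + u) - u)

theorem count_le (u : ℤ) (hu : u = 1 ∨ u = -1) (k z j x : ℕ) (hk : 1 ≤ k) (hz : 1 ≤ z) (hzx : z ^ (2 * j) ≤ x)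
    (hj : j ≤ (PS k z).card) (B : Finset ℕ) (hB : ∀ p ∈ B, p ≤ x ∧ LongI u k p) :
    (B.card : ℝ) * (((PS k z).card : ℝ) / j * (k / z)) ^ j ≤
      (z + 2) * (((PS k z).card : ℝ) / j * (k / z)) ^ j + ((x : ℝ) + 2 + 4 * x * (1 + Real.log x)) := by
  classical
  have hx1 : 1 ≤ x := le_trans (Nat.one_le_pow _ _ hz) hzx
  obtain ⟨B1, hB1⟩ : ∃ B1 : Finset ℕ, B1 = B.filter (fun p => z + 1 < p) := ⟨_, rfl⟩
  obtain ⟨g, hg⟩ : ∃ g : ℕ → ℕ, ∀ p, g p = ((p : ℤ) + u).toNat := ⟨_, fun _ => rfl⟩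
  have hgp : ∀ p ∈ B1, ((g p : ℕ) : ℤ) = (p : ℤ) + u := by
    intro p hp
    rw [hB1, Finset.mem_filter] at hp
    rw [hg, Int.toNat_of_nonneg]
    rcases hu with rfl | rfl <;> omega
  obtain ⟨S, hS⟩ : ∃ S : Finset ℕ, S = B1.image g := ⟨_, rfl⟩
  have hScard : S.card = B1.card := by
    rw [hS]
    apply Finset.card_image_of_injOn
    intro a ha b hb hab
    have h1 := hgp a ha
    have h2 := hgp b hb
    rw [hab] at h1
    omega
  have hBcard : B.card ≤ B1.card + (z + 2) := by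
    have h1 : B ⊆ B1 ∪ range (z + 2) := by
      intro p hp
      by_cases h : z + 1 < p
      · exact Finset.mem_union_left _ (by rw [hB1, Finset.mem_filter]; exact ⟨hp, h⟩)
      · exact Finset.mem_union_right _ (Finset.mem_range.2 (by omega))
    refine (Finset.card_le_card h1).trans ((Finset.card_union_le _ _).trans ?_)
    rw [Finset.card_range]
  have hPprime : ∀ l ∈ PS k z, l.Prime := fun l hl => ((mem_PS k z l).1 hl).2.1
  have hPz : ∀ l ∈ PS k z, l ≤ z := fun l hl => ((mem_PS k z l).1 hl).1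
  have hPk : ∀ l ∈ PS k z, k < l := fun l hl => ((mem_PS k z l).1 hl).2.2.1
  have hSm : ∀ m ∈ S, m < x + 2 ∧ ∀ l ∈ PS k z, m % l ∉ Om u k l := by
    intro m hm
    rw [hS, Finset.mem_image] at hm
    obtain ⟨p, hp, rfl⟩ := hm
    have hpB := hp
    rw [hB1, Finset.mem_filter] at hpB
    obtain ⟨hpB, hpz⟩ := hpB
    have h1 := hgp p hp
    refine ⟨?_, ?_⟩
    · have h2 := (hB p hpB).1
      rcases hu with rfl | rfl <;> omega
    · intro l hl hmem
      rw [mem_Om] at hmem
      obtain ⟨-, n, hn, h⟩ := hmem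
      haveI : Fact l.Prime := ⟨hPprime l hl⟩
      rw [ZMod.natCast_mod] at h
      have h3 : (((2 : ℤ) ^ n * ((p : ℤ) + u) - u : ℤ) : ZMod l) = 0 := by
        rw [← h1]
        push_cast
        rw [h]
        ring
      rw [ZMod.intCast_zmod_eq_zero_iff_dvd] at h3
      have h4 := (hB p hpB).2 n hn
      have hlp : Prime (l : ℤ) := Nat.prime_iff_prime_int.1 (hPprime l hl)
      have h5 : Associated (l : ℤ) ((2 : ℤ) ^ n * ((p : ℤ) + u) - u) :=
        (Prime.dvd_prime_iff_associated hlp h4).1 h3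
      have h6 : (l : ℤ) = (2 : ℤ) ^ n * ((p : ℤ) + u) - u := by
        rcases Int.associated_iff.1 h5 with h7 | h7
        · exact h7
        · exfalso
          have h8 : (0 : ℤ) < l := by exact_mod_cast (hPprime l hl).pos
          have h9 : (1 : ℤ) ≤ 2 ^ n := by exact_mod_cast Nat.one_le_two_pow
          have h10 : (2 : ℤ) ≤ (p : ℤ) + u := by rcases hu with rfl | rfl <;> omega
          rcases hu with rfl | rfl
          · nlinarith
          · nlinarith
      have h7 : (l : ℤ) ≤ z := by exact_mod_cast hPz l hl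
      have h9 : (1 : ℤ) ≤ 2 ^ n := by exact_mod_cast Nat.one_le_two_pow
      have h10 : (z : ℤ) + 1 < p := by exact_mod_cast hpz
      have h11 : (p : ℤ) + u ≤ 2 ^ n * ((p : ℤ) + u) := by
        have h12 : (0 : ℤ) ≤ (p : ℤ) + u := by rcases hu with rfl | rfl <;> omega
        nlinarith
      rcases hu with rfl | rfl <;> omega
  have hmain := sieve_dual (PS k z) hPprime (Om u k) k (fun l hl =>
    ⟨fun m hm => Finset.mem_range.2 ((mem_Om u k l m).1 hm).1, Om_card u hu k z l hl, hPk l hl⟩)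
    j z (x + 2) hPz hz S hSm
  have hL : (((PS k z).card : ℝ) / j * (k / z)) ^ j ≤
      ∑ T ∈ (PS k z).powersetCard j, ∏ l ∈ T, (k : ℝ) / ((l : ℝ) - k) := by
    have h1 : ∀ T ∈ (PS k z).powersetCard j, ((k : ℝ) / z) ^ j ≤ ∏ l ∈ T, (k : ℝ) / ((l : ℝ) - k) := by
      intro T hT
      rw [Finset.mem_powersetCard] at hT
      rw [← hT.2, ← Finset.prod_const]
      refine Finset.prod_le_prod (fun l _ => by positivity) fun l hl => ?_
      have h2 : (l : ℝ) ≤ z := by exact_mod_cast hPz l (hT.1 hl)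
      have h3 : (k : ℝ) < l := by exact_mod_cast hPk l (hT.1 hl)
      apply div_le_div_of_nonneg_left (by positivity) (by linarith)
      have : (0 : ℝ) ≤ k := by positivity
      linarith
    calc (((PS k z).card : ℝ) / j * (k / z)) ^ j
        = (((PS k z).card : ℝ) / j) ^ j * ((k : ℝ) / z) ^ j := mul_pow _ _ _
      _ ≤ ((PS k z).card.choose j : ℝ) * ((k : ℝ) / z) ^ j :=
          mul_le_mul_of_nonneg_right (pow_le_choose' j _ hj) (by positivity)
      _ = ∑ T ∈ (PS k z).powersetCard j, ((k : ℝ) / z) ^ j := by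
          rw [Finset.sum_const, Finset.card_powersetCard, nsmul_eq_mul]
      _ ≤ _ := Finset.sum_le_sum h1
  obtain ⟨W, hW⟩ : ∃ W : ℝ, W = (((PS k z).card : ℝ) / j * (k / z)) ^ j := ⟨_, rfl⟩
  rw [← hW] at hL ⊢
  have hW0 : 0 ≤ W := by rw [hW]; positivity
  have h6 : (S.card : ℝ) * W ≤ (x : ℝ) + 2 + 4 * x * (1 + Real.log x) := by
    refine (mul_le_mul_of_nonneg_left hL (by positivity)).trans (hmain.trans ?_)
    have h7 : ((z ^ (2 * j) : ℕ) : ℝ) ≤ x := by exact_mod_cast hzx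
    have h8 : (1 : ℝ) ≤ ((z ^ (2 * j) : ℕ) : ℝ) := by exact_mod_cast Nat.one_le_pow _ _ hz
    have h9 : Real.log ((z ^ (2 * j) : ℕ) : ℝ) ≤ Real.log x := Real.log_le_log (by linarith) h7
    have h10 : 0 ≤ Real.log ((z ^ (2 * j) : ℕ) : ℝ) := Real.log_nonneg h8
    have h11 : ((z ^ (2 * j) : ℕ) : ℝ) * (1 + Real.log ((z ^ (2 * j) : ℕ) : ℝ)) ≤
        x * (1 + Real.log x) := mul_le_mul h7 (by linarith) (by linarith) (by linarith)
    push_cast at h11 ⊢
    linarith
  have h7 : (B.card : ℝ) ≤ S.card + (z + 2) := by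
    rw [hScard]
    exact_mod_cast hBcard
  calc (B.card : ℝ) * W ≤ (S.card + (z + 2)) * W := mul_le_mul_of_nonneg_right h7 hW0
    _ = (z + 2) * W + S.card * W := by ring
    _ ≤ _ := by linarith

end Pool.Agent.CCL
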