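import Mathlib
import Pool.Agent.CCL.Count

/-!
# CCL/Bound: the bound for the number of starting points of chains of length at least `k`
-/

namespace Pool.Agent.CCL

open Finset Real Filter

theorem PS_lower (θ : ℝ) (hθ : 2 < θ) : ∃ K0 : ℕ, ∀ k : ℕ, K0 ≤ k →
    k ≤ ⌊(k : ℝ) ^ θ⌋₊ ∧ 2 ≤ ⌊(k : ℝ) ^ θ⌋₊ ∧
    (⌊(k : ℝ) ^ θ⌋₊ : ℝ) / (2 * Real.log ⌊(k : ℝ) ^ θ⌋₊) ≤ (PS k ⌊(k : ℝ) ^ θ⌋₊).card := by
  have h1 : ∀ᶠ κ : ℝ in atTop, 100 * θ * Real.log κ ≤ κ ^ (θ - 2) := by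
    have h2 := (isLittleO_log_rpow_atTop (r := θ - 2) (by linarith)).bound
      (show (0 : ℝ) < 1 / (100 * θ) by positivity)
    filter_upwards [h2, eventually_ge_atTop 1] with κ h3 h4
    rw [Real.norm_of_nonneg (Real.log_nonneg h4), Real.norm_of_nonneg (by positivity)] at h3
    have h5 : 100 * θ * Real.log κ ≤ 100 * θ * (1 / (100 * θ) * κ ^ (θ - 2)) :=
      mul_le_mul_of_nonneg_left h3 (by positivity)
    refine h5.trans (le_of_eq ?_)
    field_simp
  have h2 := tendsto_natCast_atTop_atTop (R := ℝ) |>.eventually h1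
  obtain ⟨K1, hK1⟩ := eventually_atTop.1 h2
  refine ⟨max K1 10, fun k hk => ?_⟩
  have hk10 : (10 : ℝ) ≤ k := by
    have : 10 ≤ k := le_trans (le_max_right _ _) hk
    exact_mod_cast this
  have hlog := hK1 k (le_trans (le_max_left _ _) hk)
  obtain ⟨κ, hκ⟩ : ∃ κ : ℝ, κ = (k : ℝ) := ⟨_, rfl⟩
  rw [← hκ] at hk10 hlog ⊢
  obtain ⟨z, hz⟩ : ∃ z : ℕ, z = ⌊κ ^ θ⌋₊ := ⟨_, rfl⟩
  rw [← hz]
  have hκ0 : 0 < κ := by linarith
  have hpow : κ ^ θ = κ ^ (θ - 2) * κ ^ 2 := by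
    rw [← Real.rpow_natCast κ 2, ← Real.rpow_add hκ0]
    congr 1
    push_cast
    ring
  have hlogκ : 1 ≤ Real.log κ := by
    rw [← Real.log_exp 1]
    apply Real.log_le_log (Real.exp_pos _)
    have := Real.exp_one_lt_d9
    linarith
  have hbig : 200 * κ ^ 2 ≤ κ ^ θ := by
    rw [hpow]
    have h3 : (200 : ℝ) ≤ κ ^ (θ - 2) := by
      refine le_trans ?_ hlog
      nlinarith
    exact mul_le_mul_of_nonneg_right h3 (by positivity)
  have hzle : (z : ℝ) ≤ κ ^ θ := by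
    rw [hz]
    exact Nat.floor_le (by positivity)
  have hzge : κ ^ θ - 1 ≤ z := by
    rw [hz]
    have := Nat.lt_floor_add_one (κ ^ θ)
    linarith
  have hzκ : κ ^ 2 ≤ z := by nlinarith
  have hkz : k ≤ z := by
    have : (k : ℝ) ≤ z := by rw [← hκ]; nlinarith
    exact_mod_cast this
  have hz2 : 2 ≤ z := by
    have : (2 : ℝ) ≤ z := by nlinarith
    exact_mod_cast this
  refine ⟨hkz, hz2, ?_⟩
  have hz2' : (2 : ℝ) ≤ z := by exact_mod_cast hz2
  have hlogz0 : 0 < Real.log z := Real.log_pos (by linarith)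
  have hlogz : Real.log z ≤ θ * Real.log κ := by
    rw [← Real.log_rpow hκ0]
    exact Real.log_le_log (by linarith) hzle
  have h5 := Chebyshev.pi_ge z
  have h6 := PS_card k z
  have h6' : (Nat.primeCounting z : ℝ) ≤ (PS k z).card + (κ ^ 2 + κ + 2) := by
    rw [hκ]
    exact_mod_cast h6
  have h7 : Real.log (z + 1) ≤ (κ ^ 2 + κ + 2) * Real.log z := by
    have h8 : Real.log ((z : ℝ) + 1) ≤ Real.log ((z : ℝ) ^ 2) :=
      Real.log_le_log (by linarith) (by nlinarith)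
    rw [Real.log_pow] at h8
    push_cast at h8
    nlinarith
  have h8 : (κ ^ 2 + κ + 2) * Real.log z ≤ 2 / 100 * κ ^ θ := by
    have h9 : κ ^ 2 + κ + 2 ≤ 2 * κ ^ 2 := by nlinarith
    calc (κ ^ 2 + κ + 2) * Real.log z ≤ (2 * κ ^ 2) * (θ * Real.log κ) :=
          mul_le_mul h9 hlogz hlogz0.le (by positivity)
      _ = 2 / 100 * κ ^ 2 * (100 * θ * Real.log κ) := by ring
      _ ≤ 2 / 100 * κ ^ 2 * κ ^ (θ - 2) := mul_le_mul_of_nonneg_left hlog (by positivity)
      _ = 2 / 100 * κ ^ θ := by rw [hpow]; ring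
  have h9 : (z : ℝ) / 2 + (κ ^ 2 + κ + 2) * Real.log z ≤ z * Real.log 2 - Real.log (z + 1) := by
    have h10 := Real.log_two_gt_d9
    nlinarith
  have h10 : (z : ℝ) / (2 * Real.log z) + (κ ^ 2 + κ + 2) ≤
      (z * Real.log 2 - Real.log (z + 1)) / Real.log z := by
    rw [le_div_iff₀ hlogz0]
    refine le_trans (le_of_eq ?_) h9
    field_simp
  linarith

/-- the main count -/
theorem count_bound (θ : ℝ) (hθ : 2 < θ) : ∃ K0 : ℕ, ∀ k : ℕ, K0 ≤ k → ∀ x : ℕ,
    1 ≤ Real.log x → Real.log x ≤ k → ∀ u : ℤ, (u = 1 ∨ u = -1) → ∀ B : Finset ℕ,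
    (∀ p ∈ B, p ≤ x ∧ LongI u k p) →
    (B.card : ℝ) ≤ (k : ℝ) ^ θ + 2 + ((x : ℝ) + 2 + 4 * x * (1 + Real.log x)) *
      (Real.log x / k) ^ ⌊Real.log x / (2 * (θ * Real.log k))⌋₊ := by
  obtain ⟨K0, hK0⟩ := PS_lower θ hθ
  refine ⟨max K0 2, fun k hk x hx1 hxk u hu B hB => ?_⟩
  obtain ⟨hkz, hz2, hP⟩ := hK0 k (le_trans (le_max_left _ _) hk)
  have hk2 : 2 ≤ k := le_trans (le_max_right _ _) hk
  have hk2' : (2 : ℝ) ≤ k := by exact_mod_cast hk2
  obtain ⟨z, hz⟩ : ∃ z : ℕ, z = ⌊(k : ℝ) ^ θ⌋₊ := ⟨_, rfl⟩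
  rw [← hz] at hkz hz2 hP
  have hz2' : (2 : ℝ) ≤ z := by exact_mod_cast hz2
  have hkz' : (k : ℝ) ≤ z := by exact_mod_cast hkz
  have hlogz0 : 0 < Real.log z := Real.log_pos (by linarith)
  have hzle : (z : ℝ) ≤ (k : ℝ) ^ θ := by
    rw [hz]
    exact Nat.floor_le (by positivity)
  have hlogz : Real.log z ≤ θ * Real.log k := by
    rw [← Real.log_rpow (by linarith)]
    exact Real.log_le_log (by linarith) hzle
  have hlogk0 : 0 < θ * Real.log k := mul_pos (by linarith) (Real.log_pos (by linarith))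
  obtain ⟨j, hj⟩ : ∃ j : ℕ, j = ⌊Real.log x / (2 * (θ * Real.log k))⌋₊ := ⟨_, rfl⟩
  rw [← hj]
  have hx0 : (0 : ℝ) < x := by
    by_contra h
    have : (x : ℝ) = 0 := le_antisymm (not_lt.1 h) (by positivity)
    rw [this, Real.log_zero] at hx1
    linarith
  have hjle : (j : ℝ) * (2 * (θ * Real.log k)) ≤ Real.log x := by
    rw [← le_div_iff₀ (by positivity), hj]
    exact Nat.floor_le (by positivity)
  have hjz : (j : ℝ) * (2 * Real.log z) ≤ Real.log x := by
    refine le_trans ?_ hjle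
    apply mul_le_mul_of_nonneg_left _ (by positivity)
    linarith
  have hzx : z ^ (2 * j) ≤ x := by
    have h1 : Real.log ((z : ℝ) ^ (2 * j)) ≤ Real.log x := by
      rw [Real.log_pow]
      push_cast
      linarith
    have h2 : ((z : ℝ) ^ (2 * j)) ≤ x := (Real.log_le_log_iff (by positivity) hx0).1 h1
    exact_mod_cast h2
  have hjP : j ≤ (PS k z).card := by
    have h1 : (j : ℝ) ≤ (PS k z).card := by
      refine le_trans ?_ hP
      rw [le_div_iff₀ (by positivity)]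
      linarith
    exact_mod_cast h1
  have hmain := count_le u hu k z j x (by omega) (by omega) hzx hjP B hB
  obtain ⟨W, hW⟩ : ∃ W : ℝ, W = (((PS k z).card : ℝ) / j * (k / z)) ^ j := ⟨_, rfl⟩
  obtain ⟨R, hR⟩ : ∃ R : ℝ, R = (x : ℝ) + 2 + 4 * x * (1 + Real.log x) := ⟨_, rfl⟩
  rw [← hW, ← hR] at hmain
  rw [← hR]
  have hR0 : 0 ≤ R := by rw [hR]; positivity
  have hWge : (k / Real.log x) ^ j ≤ W := by
    rw [hW]
    rcases Nat.eq_zero_or_pos j with h0 | h0
    · rw [h0]; simp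
    · have hj0 : (0 : ℝ) < j := by exact_mod_cast h0
      apply pow_le_pow_left₀ (by positivity)
      calc (k : ℝ) / Real.log x ≤ k / (j * (2 * Real.log z)) :=
            div_le_div_of_nonneg_left (by positivity) (by positivity) hjz
        _ = (z / (2 * Real.log z)) / j * (k / z) := by
            field_simp
        _ ≤ ((PS k z).card : ℝ) / j * (k / z) := by
            apply mul_le_mul_of_nonneg_right _ (by positivity)
            exact div_le_div_of_nonneg_right hP hj0.le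
  have hV0 : 0 < ((k : ℝ) / Real.log x) ^ j := by positivity
  have hW0 : 0 < W := lt_of_lt_of_le hV0 hWge
  have h1 : (B.card : ℝ) ≤ (z + 2) + R / W := by
    rw [← sub_le_iff_le_add', le_div_iff₀ hW0]
    linarith
  have h2 : R / W ≤ R * (Real.log x / k) ^ j := by
    rw [div_le_iff₀ hW0]
    have h3 : (Real.log x / k) ^ j * ((k : ℝ) / Real.log x) ^ j = 1 := by
      rw [← mul_pow]
      have h4 : Real.log x / k * ((k : ℝ) / Real.log x) = 1 := by
        field_simp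
      rw [h4, one_pow]
    calc R = R * ((Real.log x / k) ^ j * ((k : ℝ) / Real.log x) ^ j) := by rw [h3, mul_one]
      _ ≤ R * ((Real.log x / k) ^ j * W) := by
          apply mul_le_mul_of_nonneg_left _ hR0
          exact mul_le_mul_of_nonneg_left hWge (by positivity)
      _ = R * (Real.log x / k) ^ j * W := by ring
  linarith

end Pool.Agent.CCL
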