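import Mathlib

/-!
# CCL/Chain: Cunningham chains of both kinds
-/

namespace Pool.Agent.CCL

/-- the term `u_n` of the sequence of kind `i` starting at `p`: `2^n (p+1) - 1` for `i = 1`,
`2^n (p-1) + 1` for `i ≠ 1` (used with `i = 2`) -/
def term (i p n : ℕ) : ℕ := if i = 1 then 2 ^ n * (p + 1) - 1 else 2 ^ n * (p - 1) + 1

/-- `|C_i[p]| = L`: the terms `u_0, ..., u_(L-1)` are prime and `u_L` is not prime -/
def HasLength (i p L : ℕ) : Prop := (∀ n < L, (term i p n).Prime) ∧ ¬ (term i p L).Prime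

theorem prime_of_hasLength (i p L : ℕ) (hi : i = 1 ∨ i = 2) (hp : p.Prime) (h : HasLength i p L)
    (u : ℤ) (hu : u = if i = 1 then 1 else -1) (n : ℕ) (hn : n < L) :
    Prime ((2 : ℤ) ^ n * ((p : ℤ) + u) - u) := by
  have h1 := h.1 n hn
  have hpos : 1 ≤ 2 ^ n * (p + 1) := Nat.mul_pos (by positivity) (by omega)
  have hp1 : 1 ≤ p := hp.pos
  have h2 : ((term i p n : ℕ) : ℤ) = (2 : ℤ) ^ n * ((p : ℤ) + u) - u := by
    rcases hi with rfl | rfl
    · rw [term, if_pos rfl, hu, if_pos rfl, Nat.cast_sub hpos]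
      push_cast
      ring
    · rw [term, if_neg (by norm_num), hu, if_neg (by norm_num)]
      push_cast
      rw [Nat.cast_sub hp1]
      push_cast
      ring
  rw [← h2]
  exact Nat.prime_iff_prime_int.1 h1

end Pool.Agent.CCL
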