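import Mathlib
import Pool.Agent.CCL.Bound
import Pool.Agent.CCL.Asym

/-!
# CCL/Exc: few primes violate `|C_i[p]| < log_2 (p + 1)`
-/

namespace Pool.Agent.CCL

open Finset Real Filter

theorem ev_exc (K0 : ℕ) : ∀ᶠ Y : ℝ in atTop,
    1 ≤ Y ∧ (K0 : ℝ) ≤ 11 / 10 * Y ∧ 11 / 10 * Y + 1 ≤ Y ^ 2 ∧ 1 ≤ Real.log Y ∧
    Real.exp (4 / 5 * Y) + 1 + ((Y ^ 2) ^ 3 + 2) +
      (Real.exp Y + 2 + 4 * Real.exp Y * (1 + Y)) *
        Real.exp (-(9 / 100 * (Y / (12 * Real.log Y) - 1))) ≤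
      1 / 2 * (Real.exp Y * Real.exp (-(1 / 200 * (Y / Real.log Y)))) := by
  have h4 := ev_pow_exp 1 (1 / 20) (1 / 1000) (by norm_num) (by norm_num)
  have h5 := ev_pow_exp 0 (1 / 20) (1 / 1000) (by norm_num) (by norm_num)
  have h6 := ev_pow_exp 6 (1 / 20) (1 / 1000) (by norm_num) (by norm_num)
  -- Y / log Y >= 1000 log Y + 8000
  have h7 : ∀ᶠ Y : ℝ in atTop, 8000 * Real.log Y ^ 2 ≤ Y := by
    have h8 := (isLittleO_log_rpow_atTop (r := 1 / 2) (by norm_num)).bound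
      (show (0 : ℝ) < 1 / 100 by norm_num)
    filter_upwards [h8, eventually_ge_atTop 1] with Y h9 h10
    rw [Real.norm_of_nonneg (Real.log_nonneg h10), Real.norm_of_nonneg (by positivity)] at h9
    have h11 : Real.log Y ^ 2 ≤ (1 / 100 * Y ^ (1 / 2 : ℝ)) ^ 2 :=
      pow_le_pow_left₀ (Real.log_nonneg h10) h9 2
    have h12 : (Y ^ (1 / 2 : ℝ)) ^ 2 = Y := by
      rw [← Real.rpow_natCast, ← Real.rpow_mul (by linarith)]
      norm_num
    rw [mul_pow, h12] at h11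
    linarith
  have h8 : ∀ᶠ Y : ℝ in atTop, 10 ≤ Real.log Y := tendsto_log_atTop.eventually_ge_atTop _
  filter_upwards [eventually_ge_atTop 2, eventually_ge_atTop ((K0 : ℝ)), h4, h5, h6, h7, h8]
    with Y g1 g2 g4 g5 g6 g7 g8
  have hY0 : 0 < Y := by linarith
  rw [Real.rpow_one] at g4
  rw [Real.rpow_zero] at g5
  have g6' : (Y ^ 2) ^ 3 ≤ 1 / 1000 * Real.exp (1 / 20 * Y) := by
    refine le_trans (le_of_eq ?_) g6
    rw [← pow_mul, ← Real.rpow_natCast]
    norm_num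
  refine ⟨by linarith, by linarith, by nlinarith, by linarith, ?_⟩
  have hl0 : 0 < Real.log Y := by linarith
  obtain ⟨e, he⟩ : ∃ e : ℝ, e = Real.exp (1 / 20 * Y) := ⟨_, rfl⟩
  rw [← he] at g4 g5 g6'
  have he1 : 1000 ≤ e := by linarith
  obtain ⟨v, hv⟩ : ∃ v : ℝ, v = Real.exp (-(1 / 200 * (Y / Real.log Y))) := ⟨_, rfl⟩
  rw [← hv]
  have hYl : Y / Real.log Y ≤ Y := by
    rw [div_le_iff₀ hl0]
    nlinarith
  have hYl0 : 0 < Y / Real.log Y := by positivity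
  have hYl2 : 8000 * Real.log Y ≤ Y / Real.log Y := by
    rw [le_div_iff₀ hl0]
    nlinarith
  have hk1 : Real.exp (4 / 5 * Y) * e ≤ Real.exp Y * v := by
    rw [he, hv, ← Real.exp_add, ← Real.exp_add]
    apply Real.exp_le_exp.2
    nlinarith
  have hk2 : e * e ≤ Real.exp Y * v := by
    rw [he, hv, ← Real.exp_add, ← Real.exp_add]
    apply Real.exp_le_exp.2
    nlinarith
  obtain ⟨M, hM⟩ : ∃ M : ℝ, M = Real.exp Y * v := ⟨_, rfl⟩
  rw [← hM] at hk1 hk2 ⊢
  have hexp : 1 ≤ Real.exp Y := Real.one_le_exp hY0.le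
  have k1 : Real.exp (4 / 5 * Y) ≤ M / 1000 := by
    rw [le_div_iff₀ (by norm_num)]
    refine le_trans ?_ hk1
    exact mul_le_mul_of_nonneg_left he1 (Real.exp_pos _).le
  have k2 : e ≤ M / 1000 := by
    rw [le_div_iff₀ (by norm_num)]
    nlinarith
  have k3 : (Real.exp Y + 2 + 4 * Real.exp Y * (1 + Y)) *
        Real.exp (-(9 / 100 * (Y / (12 * Real.log Y) - 1))) ≤ M / 4 := by
    have h9 : Real.exp Y + 2 + 4 * Real.exp Y * (1 + Y) ≤ Real.exp Y * (8 * Y) := by nlinarith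
    have h10 : Real.exp (-(9 / 100 * (Y / (12 * Real.log Y) - 1))) =
        v * (Real.exp (9 / 100) * Real.exp (-(1 / 400 * (Y / Real.log Y)))) := by
      rw [hv, ← Real.exp_add, ← Real.exp_add]
      congr 1
      field_simp
      ring
    have h11 : Real.exp (9 / 100) ≤ 3 := by
      have h12 : Real.exp (9 / 100) ≤ Real.exp 1 := Real.exp_le_exp.2 (by norm_num)
      have := Real.exp_one_lt_d9
      linarith
    have h12 : Real.exp (-(1 / 400 * (Y / Real.log Y))) ≤ Real.exp (-(20 * Real.log Y)) := by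
      apply Real.exp_le_exp.2
      linarith
    have h13 : Real.exp (-(20 * Real.log Y)) ≤ 1 / (100 * Y) := by
      rw [Real.exp_neg, one_div]
      apply inv_anti₀ (by positivity)
      have h14 : Real.exp (20 * Real.log Y) = Y ^ 20 := by
        rw [show (20 : ℝ) * Real.log Y = ((20 : ℕ) : ℝ) * Real.log Y by norm_num, Real.exp_nat_mul,
          Real.exp_log hY0]
      rw [h14]
      have h15 : (2 : ℝ) ^ 19 ≤ Y ^ 19 := pow_le_pow_left₀ (by norm_num) g1 19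
      calc 100 * Y ≤ 2 ^ 19 * Y := by nlinarith
        _ ≤ Y ^ 19 * Y := mul_le_mul_of_nonneg_right h15 hY0.le
        _ = Y ^ 20 := by ring
    have hv0 : 0 < v := by rw [hv]; exact Real.exp_pos _
    rw [h10]
    calc (Real.exp Y + 2 + 4 * Real.exp Y * (1 + Y)) *
          (v * (Real.exp (9 / 100) * Real.exp (-(1 / 400 * (Y / Real.log Y)))))
        ≤ (Real.exp Y * (8 * Y)) * (v * (3 * (1 / (100 * Y)))) := by
          apply mul_le_mul h9 _ (by positivity) (by positivity)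
          apply mul_le_mul_of_nonneg_left _ hv0.le
          exact mul_le_mul h11 (h12.trans h13) (Real.exp_pos _).le (by norm_num)
      _ = M * (24 / 100) := by
          rw [hM]
          field_simp
          norm_num
      _ ≤ M / 4 := by
          have : 0 < M := by rw [hM]; positivity
          linarith
  linarith

theorem few_exceptions : ∃ X0 : ℕ, ∀ x : ℕ, X0 ≤ x →
    ∀ u : ℤ, (u = 1 ∨ u = -1) → ∀ B : Finset ℕ,
    (∀ p ∈ B, p ≤ x ∧ ∀ n : ℕ, (n : ℝ) < Real.logb 2 (p + 1) →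
      Prime ((2 : ℤ) ^ n * ((p : ℤ) + u) - u)) →
    (B.card : ℝ) ≤ 1 / 2 * (x * Real.exp (-(1 / 200 * (Real.log x / Real.log (Real.log x))))) := by
  classical
  obtain ⟨K0, hK0⟩ := count_bound 3 (by norm_num)
  have h1 : Tendsto (fun n : ℕ => Real.log (n : ℝ)) atTop atTop :=
    tendsto_log_atTop.comp tendsto_natCast_atTop_atTop
  obtain ⟨X0, hX0⟩ := eventually_atTop.1 (h1.eventually (ev_exc K0))
  refine ⟨max X0 1, fun x hx u hu B hB => ?_⟩
  obtain ⟨g1, g2, g3, g4, g6⟩ := hX0 x (le_trans (le_max_left _ _) hx)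
  have hx1 : 1 ≤ x := le_trans (le_max_right _ _) hx
  have hx0 : (0 : ℝ) < x := by exact_mod_cast hx1
  obtain ⟨Y, hY⟩ : ∃ Y : ℝ, Y = Real.log x := ⟨_, rfl⟩
  rw [← hY] at g1 g2 g3 g4 g6 ⊢
  have hY0 : 0 < Y := by linarith
  have hxY : (x : ℝ) = Real.exp Y := by rw [hY, Real.exp_log hx0]
  obtain ⟨k, hk⟩ : ∃ k : ℕ, k = ⌈11 / 10 * Y⌉₊ := ⟨_, rfl⟩
  have hkge : 11 / 10 * Y ≤ k := by rw [hk]; exact Nat.le_ceil _
  have hkle : (k : ℝ) ≤ Y ^ 2 := by
    have : (k : ℝ) < 11 / 10 * Y + 1 := by rw [hk]; exact Nat.ceil_lt_add_one (by positivity)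
    linarith
  have hkK : K0 ≤ k := by
    have : (K0 : ℝ) ≤ k := g2.trans hkge
    exact_mod_cast this
  have hk0 : (0 : ℝ) < k := by linarith
  obtain ⟨B1, hB1⟩ : ∃ B1 : Finset ℕ, B1 = B.filter (fun p => ⌊(x : ℝ) ^ (4 / 5 : ℝ)⌋₊ < p) :=
    ⟨_, rfl⟩
  have hcard : (B.card : ℝ) ≤ B1.card + (Real.exp (4 / 5 * Y) + 1) := by
    have h2 : B ⊆ B1 ∪ range (⌊(x : ℝ) ^ (4 / 5 : ℝ)⌋₊ + 1) := by
      intro p hp
      by_cases h : ⌊(x : ℝ) ^ (4 / 5 : ℝ)⌋₊ < p
      · exact Finset.mem_union_left _ (by rw [hB1, Finset.mem_filter]; exact ⟨hp, h⟩)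
      · exact Finset.mem_union_right _ (Finset.mem_range.2 (by omega))
    have h3 : B.card ≤ B1.card + (⌊(x : ℝ) ^ (4 / 5 : ℝ)⌋₊ + 1) := by
      refine (Finset.card_le_card h2).trans ((Finset.card_union_le _ _).trans ?_)
      rw [Finset.card_range]
    have h4 : (⌊(x : ℝ) ^ (4 / 5 : ℝ)⌋₊ : ℝ) ≤ Real.exp (4 / 5 * Y) := by
      refine (Nat.floor_le (by positivity)).trans (le_of_eq ?_)
      rw [hxY, ← Real.exp_mul]
      congr 1
      ring
    have h5 : (B.card : ℝ) ≤ B1.card + ((⌊(x : ℝ) ^ (4 / 5 : ℝ)⌋₊ : ℝ) + 1) := by exact_mod_cast h3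
    linarith
  have hB1' : ∀ p ∈ B1, p ≤ x ∧ LongI u k p := by
    intro p hp
    rw [hB1, Finset.mem_filter] at hp
    obtain ⟨hpB, hpx⟩ := hp
    refine ⟨(hB p hpB).1, fun n hn => (hB p hpB).2 n ?_⟩
    rw [hk, Nat.lt_ceil] at hn
    refine hn.trans_le ?_
    rw [Nat.floor_lt (by positivity)] at hpx
    have h3 : Real.log ((x : ℝ) ^ (4 / 5 : ℝ)) ≤ Real.log (p + 1) :=
      Real.log_le_log (by positivity) (by linarith)
    rw [Real.log_rpow hx0, ← hY] at h3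
    rw [Real.logb, le_div_iff₀ (Real.log_pos (by norm_num))]
    have := Real.log_two_lt_d9
    nlinarith
  have hmain := hK0 k hkK x (by rw [← hY]; exact g1) (by rw [← hY]; linarith) u hu B1 hB1'
  rw [← hY, hxY] at hmain
  obtain ⟨j, hj⟩ : ∃ j : ℕ, j = ⌊Y / (2 * (3 * Real.log k))⌋₊ := ⟨_, rfl⟩
  rw [← hj] at hmain
  have hlogk : Real.log k ≤ 2 * Real.log Y := by
    have h3 : Real.log k ≤ Real.log (Y ^ 2) := Real.log_le_log hk0 hkle
    rw [Real.log_pow] at h3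
    push_cast at h3
    exact h3
  have hlogk0 : 0 < Real.log k := Real.log_pos (by linarith)
  have hjge : Y / (12 * Real.log Y) - 1 ≤ (j : ℝ) := by
    have h3 : Y / (2 * (3 * Real.log k)) < (j : ℝ) + 1 := by
      rw [hj]
      exact Nat.lt_floor_add_one _
    have h4 : Y / (12 * Real.log Y) ≤ Y / (2 * (3 * Real.log k)) := by
      apply div_le_div_of_nonneg_left hY0.le (by positivity)
      linarith
    linarith
  have hratio : (Y / k) ^ j ≤ Real.exp (-(9 / 100 * (Y / (12 * Real.log Y) - 1))) := by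
    have h3 : Y / k ≤ Real.exp (-(9 / 100)) := by
      have h4 : Y / k ≤ 10 / 11 := by
        rw [div_le_iff₀ hk0]
        linarith
      refine h4.trans ?_
      have := Real.add_one_le_exp (-(9 / 100 : ℝ))
      linarith
    calc (Y / k) ^ j ≤ (Real.exp (-(9 / 100))) ^ j := pow_le_pow_left₀ (by positivity) h3 j
      _ = Real.exp (-(9 / 100 * j)) := by
          rw [← Real.exp_nat_mul]
          congr 1
          ring
      _ ≤ _ := by
          apply Real.exp_le_exp.2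
          linarith
  have hkθ : (k : ℝ) ^ (3 : ℝ) ≤ (Y ^ 2) ^ 3 := by
    rw [show (3 : ℝ) = ((3 : ℕ) : ℝ) by norm_num, Real.rpow_natCast]
    exact pow_le_pow_left₀ hk0.le hkle 3
  have hfin : (B1.card : ℝ) ≤ (Y ^ 2) ^ 3 + 2 + (Real.exp Y + 2 + 4 * Real.exp Y * (1 + Y)) *
        Real.exp (-(9 / 100 * (Y / (12 * Real.log Y) - 1))) := by
    refine hmain.trans ?_
    have h3 : (Real.exp Y + 2 + 4 * Real.exp Y * (1 + Y)) * (Y / k) ^ j ≤
        (Real.exp Y + 2 + 4 * Real.exp Y * (1 + Y)) *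
        Real.exp (-(9 / 100 * (Y / (12 * Real.log Y) - 1))) := by
      apply mul_le_mul_of_nonneg_left hratio
      positivity
    linarith
  rw [hxY]
  linarith

end Pool.Agent.CCL
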