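import Mathlib
import Pool.Agent.CCL.Bound
import Pool.Agent.CCL.Asym

/-!
# CCL/Main: few primes start long Cunningham chains
-/

namespace Pool.Agent.CCL

open Finset Real Filter

theorem ev_final (A ε : ℝ) (hA : 1 < A) (hε : 0 < ε) (K0 : ℕ) : ∀ᶠ Y : ℝ in atTop,
    1 ≤ Y ∧ (K0 : ℝ) ≤ (3 / 4 * Y) ^ A ∧ Y ≤ (3 / 4 * Y) ^ A ∧ (3 / 4 * Y) ^ A + 1 ≤ Y ^ A ∧
    (∀ j : ℝ, Y / (2 * (2 + ε) * A * Real.log Y) - 1 ≤ j →
      ((A - 1) / (4 * A) - ε / 2) * Y ≤ j * ((A - 1) * Real.log Y - A * Real.log (4 / 3))) ∧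
    Real.exp (3 / 4 * Y) + 1 + (Y ^ (A * (2 + ε)) + 2) +
      (Real.exp Y + 2 + 4 * Real.exp Y * (1 + Y)) *
        Real.exp (-(((A - 1) / (4 * A) - ε / 2) * Y)) ≤
      Real.exp ((3 / 4 + 1 / (4 * A) + ε) * Y) := by
  have hA0 : 0 < A := by linarith
  have hC : 0 ≤ A * Real.log (4 / 3) := mul_nonneg hA0.le (Real.log_nonneg (by norm_num))
  have h1 : Tendsto (fun Y : ℝ => (3 / 4 * Y) ^ A) atTop atTop :=
    (tendsto_rpow_atTop hA0).comp (Tendsto.const_mul_atTop (by norm_num) tendsto_id)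
  have h2 : Tendsto (fun Y : ℝ => (3 / 4 * Y) ^ (A - 1)) atTop atTop :=
    (tendsto_rpow_atTop (by linarith)).comp (Tendsto.const_mul_atTop (by norm_num) tendsto_id)
  have h3 : Tendsto (fun Y : ℝ => Y ^ A) atTop atTop := tendsto_rpow_atTop hA0
  have h34 : (3 / 4 : ℝ) ^ A < 1 := Real.rpow_lt_one (by norm_num) (by norm_num) hA0
  have h4 := ev_pow_exp 1 (ε / 2) (1 / 32) (by linarith) (by norm_num)
  have h5 := ev_pow_exp 0 (ε / 2) (1 / 64) (by linarith) (by norm_num)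
  have h6 := ev_pow_exp (A * (2 + ε)) (ε / 2) (1 / 16) (by linarith) (by norm_num)
  filter_upwards [eventually_ge_atTop 1, h1.eventually_ge_atTop (K0 : ℝ), h2.eventually_ge_atTop (4 / 3),
    h3.eventually_ge_atTop (1 / (1 - (3 / 4 : ℝ) ^ A)), ev_exponent A ε _ hA hε hC, h4, h5, h6]
    with Y g1 g2 g3 g4 g5 g6 g7 g8
  have hY0 : 0 < Y := by linarith
  refine ⟨g1, g2, ?_, ?_, g5, ?_⟩
  · have h7 : (3 / 4 * Y) ^ A = (3 / 4 * Y) ^ (A - 1) * (3 / 4 * Y) := by
      rw [← Real.rpow_add_one (by positivity)]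
      congr 1
      ring
    rw [h7]
    nlinarith
  · rw [Real.mul_rpow (by norm_num) hY0.le]
    rw [div_le_iff₀ (by linarith)] at g4
    linarith
  · rw [Real.rpow_one] at g6
    rw [Real.rpow_zero] at g7
    obtain ⟨e, he⟩ : ∃ e : ℝ, e = Real.exp (ε / 2 * Y) := ⟨_, rfl⟩
    obtain ⟨E, hE⟩ : ∃ E : ℝ, E = Real.exp ((3 / 4 + 1 / (4 * A) + ε) * Y) := ⟨_, rfl⟩
    rw [← he] at g6 g7 g8
    have he0 : 64 ≤ e := by linarith
    -- E = exp(3/4 Y) * (something >= e)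
    have hE1 : Real.exp (3 / 4 * Y) * e ≤ E := by
      rw [he, hE, ← Real.exp_add]
      apply Real.exp_le_exp.2
      have : 0 ≤ 1 / (4 * A) * Y := by positivity
      nlinarith
    have hE2 : e * e ≤ E := by
      rw [he, hE, ← Real.exp_add]
      apply Real.exp_le_exp.2
      have : 0 ≤ 1 / (4 * A) * Y := by positivity
      nlinarith
    have hE3 : Real.exp Y * Real.exp (-(((A - 1) / (4 * A) - ε / 2) * Y)) * e = E := by
      rw [he, hE, ← Real.exp_add, ← Real.exp_add]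
      congr 1
      field_simp
      ring
    obtain ⟨w, hw⟩ : ∃ w : ℝ, w = Real.exp (-(((A - 1) / (4 * A) - ε / 2) * Y)) := ⟨_, rfl⟩
    rw [← hE, ← hw]
    rw [← hw] at hE3
    have hw0 : 0 < w := by rw [hw]; exact Real.exp_pos _
    have hexp : 1 ≤ Real.exp Y := Real.one_le_exp hY0.le
    have hE0 : 0 < E := by rw [hE]; exact Real.exp_pos _
    have k1 : Real.exp (3 / 4 * Y) ≤ E / 64 := by
      rw [le_div_iff₀ (by norm_num)]
      refine le_trans ?_ hE1
      exact mul_le_mul_of_nonneg_left he0 (Real.exp_pos _).le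
    have k2 : e ≤ E / 64 := by
      rw [le_div_iff₀ (by norm_num)]
      nlinarith
    have k3 : (Real.exp Y + 2 + 4 * Real.exp Y * (1 + Y)) * w ≤ E / 2 := by
      have h9 : Real.exp Y + 2 + 4 * Real.exp Y * (1 + Y) ≤ Real.exp Y * (7 + 4 * Y) := by nlinarith
      have h10 : 7 + 4 * Y ≤ e / 2 := by linarith
      calc (Real.exp Y + 2 + 4 * Real.exp Y * (1 + Y)) * w ≤ Real.exp Y * (7 + 4 * Y) * w :=
            mul_le_mul_of_nonneg_right h9 hw0.le
        _ ≤ Real.exp Y * (e / 2) * w := by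
            apply mul_le_mul_of_nonneg_right _ hw0.le
            exact mul_le_mul_of_nonneg_left h10 (by linarith)
        _ = E / 2 := by rw [← hE3]; ring
    linarith

theorem long_chains (A ε : ℝ) (hA : 1 < A) (hε : 0 < ε) : ∃ X0 : ℕ, ∀ x : ℕ, X0 ≤ x →
    ∀ u : ℤ, (u = 1 ∨ u = -1) → ∀ B : Finset ℕ,
    (∀ p ∈ B, p ≤ x ∧ ∀ n : ℕ, (n : ℝ) < (Real.log p) ^ A →
      Prime ((2 : ℤ) ^ n * ((p : ℤ) + u) - u)) →
    (B.card : ℝ) ≤ (x : ℝ) ^ (3 / 4 + 1 / (4 * A) + ε) := by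
  classical
  obtain ⟨K0, hK0⟩ := count_bound (2 + ε) (by linarith)
  have h1 : Tendsto (fun n : ℕ => Real.log (n : ℝ)) atTop atTop :=
    tendsto_log_atTop.comp tendsto_natCast_atTop_atTop
  obtain ⟨X0, hX0⟩ := eventually_atTop.1 (h1.eventually (ev_final A ε hA hε K0))
  refine ⟨max X0 1, fun x hx u hu B hB => ?_⟩
  obtain ⟨g1, g2, g3, g4, g5, g6⟩ := hX0 x (le_trans (le_max_left _ _) hx)
  have hx1 : 1 ≤ x := le_trans (le_max_right _ _) hx
  have hx0 : (0 : ℝ) < x := by exact_mod_cast hx1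
  obtain ⟨Y, hY⟩ : ∃ Y : ℝ, Y = Real.log x := ⟨_, rfl⟩
  rw [← hY] at g1 g2 g3 g4 g5 g6
  have hY0 : 0 < Y := by linarith
  have hxY : (x : ℝ) = Real.exp Y := by rw [hY, Real.exp_log hx0]
  obtain ⟨k, hk⟩ : ∃ k : ℕ, k = ⌈(3 / 4 * Y) ^ A⌉₊ := ⟨_, rfl⟩
  have hkge : (3 / 4 * Y) ^ A ≤ k := by rw [hk]; exact Nat.le_ceil _
  have hkle : (k : ℝ) ≤ Y ^ A := by
    have : (k : ℝ) < (3 / 4 * Y) ^ A + 1 := by rw [hk]; exact Nat.ceil_lt_add_one (by positivity)
    linarith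
  have hkK : K0 ≤ k := by
    have : (K0 : ℝ) ≤ k := g2.trans hkge
    exact_mod_cast this
  have hk0 : (0 : ℝ) < k := lt_of_lt_of_le (by linarith) (g3.trans hkge)
  obtain ⟨B1, hB1⟩ : ∃ B1 : Finset ℕ, B1 = B.filter (fun p => ⌊(x : ℝ) ^ (3 / 4 : ℝ)⌋₊ < p) :=
    ⟨_, rfl⟩
  have hcard : (B.card : ℝ) ≤ B1.card + (Real.exp (3 / 4 * Y) + 1) := by
    have h2 : B ⊆ B1 ∪ range (⌊(x : ℝ) ^ (3 / 4 : ℝ)⌋₊ + 1) := by
      intro p hp
      by_cases h : ⌊(x : ℝ) ^ (3 / 4 : ℝ)⌋₊ < p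
      · exact Finset.mem_union_left _ (by rw [hB1, Finset.mem_filter]; exact ⟨hp, h⟩)
      · exact Finset.mem_union_right _ (Finset.mem_range.2 (by omega))
    have h3 : B.card ≤ B1.card + (⌊(x : ℝ) ^ (3 / 4 : ℝ)⌋₊ + 1) := by
      refine (Finset.card_le_card h2).trans ((Finset.card_union_le _ _).trans ?_)
      rw [Finset.card_range]
    have h4 : (⌊(x : ℝ) ^ (3 / 4 : ℝ)⌋₊ : ℝ) ≤ Real.exp (3 / 4 * Y) := by
      refine (Nat.floor_le (by positivity)).trans (le_of_eq ?_)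
      rw [hxY, ← Real.exp_mul]
      congr 1
      ring
    have h5 : (B.card : ℝ) ≤ B1.card + ((⌊(x : ℝ) ^ (3 / 4 : ℝ)⌋₊ : ℝ) + 1) := by exact_mod_cast h3
    linarith
  have hB1' : ∀ p ∈ B1, p ≤ x ∧ LongI u k p := by
    intro p hp
    rw [hB1, Finset.mem_filter] at hp
    obtain ⟨hpB, hpx⟩ := hp
    refine ⟨(hB p hpB).1, fun n hn => (hB p hpB).2 n ?_⟩
    rw [hk, Nat.lt_ceil] at hn
    refine hn.trans_le ?_
    apply Real.rpow_le_rpow (by positivity) _ (by linarith)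
    rw [Nat.floor_lt (by positivity)] at hpx
    have h3 : Real.log ((x : ℝ) ^ (3 / 4 : ℝ)) ≤ Real.log p := Real.log_le_log (by positivity) hpx.le
    rw [Real.log_rpow hx0, ← hY] at h3
    exact h3
  have hmain := hK0 k hkK x (by rw [← hY]; exact g1) (by rw [← hY]; exact g3.trans hkge) u hu B1 hB1'
  rw [← hY, hxY] at hmain
  obtain ⟨j, hj⟩ : ∃ j : ℕ, j = ⌊Y / (2 * ((2 + ε) * Real.log k))⌋₊ := ⟨_, rfl⟩
  rw [← hj] at hmain
  have hlogY : 0 ≤ Real.log Y := Real.log_nonneg g1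
  have hlogk : Real.log k ≤ A * Real.log Y := by
    rw [← Real.log_rpow hY0]
    exact Real.log_le_log hk0 hkle
  have hk2 : (1 : ℝ) ≤ k := g1.trans (g3.trans hkge)
  have hYA : 1 < Y ^ A := by
    have : 0 < (3 / 4 * Y) ^ A := by positivity
    linarith
  have hlogY0 : 0 < Real.log Y := by
    have h3 : 0 < Real.log (Y ^ A) := Real.log_pos hYA
    rw [Real.log_rpow hY0] at h3
    exact (mul_pos_iff_of_pos_left (by linarith)).1 h3
  have hjge : Y / (2 * (2 + ε) * A * Real.log Y) - 1 ≤ (j : ℝ) := by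
    rcases eq_or_lt_of_le (Real.log_nonneg hk2) with h0 | h0
    · -- k = 1: then Y <= 1
      exfalso
      have h3 : (k : ℝ) = 1 := by
        rcases Real.log_eq_zero.1 h0.symm with h4 | h4 | h4
        · linarith
        · exact h4
        · linarith
      have h4 : Y ≤ 1 := by
        have := g3.trans hkge
        rw [h3] at this
        exact this
      have h5 : Y = 1 := le_antisymm h4 g1
      rw [h5, Real.one_rpow] at hYA
      exact lt_irrefl _ hYA
    · have h3 : Y / (2 * ((2 + ε) * Real.log k)) < (j : ℝ) + 1 := by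
        rw [hj]
        exact Nat.lt_floor_add_one _
      have h4 : Y / (2 * (2 + ε) * A * Real.log Y) ≤ Y / (2 * ((2 + ε) * Real.log k)) := by
        apply div_le_div_of_nonneg_left hY0.le (by positivity)
        calc 2 * ((2 + ε) * Real.log k) ≤ 2 * ((2 + ε) * (A * Real.log Y)) := by
              apply mul_le_mul_of_nonneg_left _ (by norm_num)
              exact mul_le_mul_of_nonneg_left hlogk (by linarith)
          _ = 2 * (2 + ε) * A * Real.log Y := by ring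
      linarith
  have hexpo := g5 j hjge
  have hratio : (Y / k) ^ j ≤ Real.exp (-(((A - 1) / (4 * A) - ε / 2) * Y)) := by
    have h3 : Y / k ≤ Real.exp (-((A - 1) * Real.log Y - A * Real.log (4 / 3))) := by
      have h4 : Y / k ≤ Y / (3 / 4 * Y) ^ A :=
        div_le_div_of_nonneg_left hY0.le (by positivity) hkge
      refine h4.trans (le_of_eq ?_)
      rw [Real.mul_rpow (by norm_num) hY0.le]
      have h5 : Real.exp (-((A - 1) * Real.log Y - A * Real.log (4 / 3))) =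
          Real.exp (Real.log Y) * Real.exp (A * Real.log (4 / 3)) / Real.exp (A * Real.log Y) := by
        rw [← Real.exp_add, ← Real.exp_sub]
        congr 1
        ring
      have h6 : (3 / 4 : ℝ) ^ A = 1 / Real.exp (A * Real.log (4 / 3)) := by
        rw [Real.rpow_def_of_pos (by norm_num), one_div, ← Real.exp_neg]
        congr 1
        rw [show (3 / 4 : ℝ) = (4 / 3)⁻¹ by norm_num, Real.log_inv]
        ring
      rw [h5, Real.exp_log hY0, h6, Real.rpow_def_of_pos hY0, mul_comm (Real.log Y) A]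
      field_simp
    calc (Y / k) ^ j ≤ (Real.exp (-((A - 1) * Real.log Y - A * Real.log (4 / 3)))) ^ j :=
          pow_le_pow_left₀ (by positivity) h3 j
      _ = Real.exp (-(j * ((A - 1) * Real.log Y - A * Real.log (4 / 3)))) := by
          rw [← Real.exp_nat_mul]
          congr 1
          ring
      _ ≤ _ := by
          apply Real.exp_le_exp.2
          linarith
  have hkθ : (k : ℝ) ^ (2 + ε) ≤ Y ^ (A * (2 + ε)) := by
    rw [Real.rpow_mul hY0.le]
    exact Real.rpow_le_rpow hk0.le hkle (by linarith)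
  have hfin : (B1.card : ℝ) ≤ Y ^ (A * (2 + ε)) + 2 + (Real.exp Y + 2 + 4 * Real.exp Y * (1 + Y)) *
        Real.exp (-(((A - 1) / (4 * A) - ε / 2) * Y)) := by
    refine hmain.trans ?_
    have h3 : (Real.exp Y + 2 + 4 * Real.exp Y * (1 + Y)) * (Y / k) ^ j ≤
        (Real.exp Y + 2 + 4 * Real.exp Y * (1 + Y)) *
        Real.exp (-(((A - 1) / (4 * A) - ε / 2) * Y)) := by
      apply mul_le_mul_of_nonneg_left hratio
      positivity
    linarith
  have hpow : (x : ℝ) ^ (3 / 4 + 1 / (4 * A) + ε) = Real.exp ((3 / 4 + 1 / (4 * A) + ε) * Y) := by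
    rw [hxY, ← Real.exp_mul]
    congr 1
    ring
  rw [hpow]
  linarith

end Pool.Agent.CCL
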